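import Pool.Agent.N920.CC.Bound
import Pool.Agent.N920.TW.Asym

/-!
# Largest Ramsey colourings of given randomized communication complexity
-/

set_option autoImplicit false

namespace Pool.Agent.N920.CC

open Finset Real Filter Topology

open Classical

open Pool.Agent.N920.TW (NoMono ramsey)

/-- The largest number of vertices of a colouring of randomized communication complexity at most
`c` without monochromatic `K_k`. -/
noncomputable def rccOrder (k c : ℕ) : ℕ :=
  sSup {n : ℕ | ∃ (V : Type) (_ : Fintype V) (G : SimpleGraph V),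
    Fintype.card V = n ∧ NoMono G k ∧ RandCost G c}

theorem bdd_rcc (k c : ℕ) : BddAbove {n : ℕ | ∃ (V : Type) (_ : Fintype V) (G : SimpleGraph V),
    Fintype.card V = n ∧ NoMono G k ∧ RandCost G c} := by
  refine (TW.bdd_all k).mono ?_
  rintro n ⟨V, hV, G, h1, h2, -⟩
  exact ⟨V, hV, G, h1, h2⟩

theorem le_rccOrder {V : Type} [Fintype V] {G : SimpleGraph V} {k c : ℕ} (h1 : NoMono G k)
    (h2 : RandCost G c) : Fintype.card V ≤ rccOrder k c :=
  le_csSup (bdd_rcc k c) ⟨V, inferInstance, G, rfl, h1, h2⟩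

theorem rcc_mem (k c : ℕ) (h : 0 < rccOrder k c) : ∃ (V : Type) (_ : Fintype V)
    (G : SimpleGraph V), Fintype.card V = rccOrder k c ∧ NoMono G k ∧ RandCost G c := by
  have hne : {n : ℕ | ∃ (V : Type) (_ : Fintype V) (G : SimpleGraph V),
      Fintype.card V = n ∧ NoMono G k ∧ RandCost G c}.Nonempty := by
    by_contra hcon
    rw [Set.not_nonempty_iff_eq_empty] at hcon
    unfold rccOrder at h
    rw [hcon] at h
    simp at h
  exact Nat.sSup_mem hne (bdd_rcc k c)

theorem rcc_upper (k c : ℕ) (hk : 1 ≤ k) (hc : 1 ≤ c) :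
    log (rccOrder k c) ≤ 400 * c * log (2 + (k : ℝ) / c) ^ 2 := by
  rcases Nat.eq_zero_or_pos (rccOrder k c) with h | h
  · rw [h]
    simp only [Nat.cast_zero, log_zero]
    positivity
  · obtain ⟨V, _, G, h1, h2, h3⟩ := rcc_mem k c h
    rw [← h1]
    exact upper_rand hk hc h2.1 h2.2 h3

theorem rcc_lower (k c : ℕ) (hc : 1 ≤ c) (hck : 2 * c ≤ k) : 2 ^ (c - 1) ≤ rccOrder k c := by
  obtain ⟨m, rfl⟩ : ∃ m, c = m + 1 := ⟨c - 1, by omega⟩
  rw [Nat.add_sub_cancel]
  rcases Nat.eq_zero_or_pos m with rfl | hm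
  · have h1 : NoMono (⊥ : SimpleGraph (Fin 1)) k := by
      have : ∀ H : SimpleGraph (Fin 1), H.CliqueFree k := by
        intro H S hS
        have h2 := hS.card_eq
        have h3 := card_le_univ S
        rw [Fintype.card_fin] at h3
        omega
      exact ⟨this _, this _⟩
    have := le_rccOrder h1 (randCost_of_card (⊥ : SimpleGraph (Fin 1)) 0 (by simp))
    rw [Fintype.card_fin] at this
    simpa using this
  · obtain ⟨G, h1, h2⟩ := Pool.Agent.Y422.TW.erdos m hm
    have h3 : NoMono G k := ⟨h1.mono (by omega), h2.mono (by omega)⟩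
    have := le_rccOrder h3 (randCost_of_card G m (by simp))
    rwa [Fintype.card_fin] at this

theorem rcc_lt_ramsey (k c : ℕ) (hk : 2 * c ≤ k) (hc : 1 ≤ c) : rccOrder k c < ramsey k := by
  have h := rcc_lower k c hc hk
  have h0 : 0 < rccOrder k c := lt_of_lt_of_le (by positivity) h
  obtain ⟨V, _, G, h1, h2, h3⟩ := rcc_mem k c h0
  rw [← h1]
  exact TW.card_lt_ramsey h2

/-- Growth rates. -/
theorem rates (ε : ℝ) (h0 : 0 < ε) (h1 : ε ≤ 1 / 2) (k : ℕ) (hk : 1 ≤ ε * k) :
    (ε - 2 / k) * log 2 ≤ log (rccOrder k ⌊ε * k⌋₊) / k ∧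
      log (rccOrder k ⌊ε * k⌋₊) / k ≤ 400 * ε * log (2 + 2 / ε) ^ 2 := by
  have hk0 : (0 : ℝ) < k := by
    by_contra hcon
    have : (k : ℝ) = 0 := le_antisymm (not_lt.mp hcon) (Nat.cast_nonneg k)
    rw [this, mul_zero] at hk
    linarith
  have hk1 : 1 ≤ k := by exact_mod_cast hk0
  set c := ⌊ε * k⌋₊ with hc
  have hc1 : 1 ≤ c := by
    rw [hc]
    exact Nat.le_floor (by exact_mod_cast hk)
  have hc1' : (1 : ℝ) ≤ c := by exact_mod_cast hc1
  have hc2 : (c : ℝ) ≤ ε * k := Nat.floor_le (by positivity)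
  have hc3 : ε * k < c + 1 := Nat.lt_floor_add_one _
  have hck : 2 * c ≤ k := by
    have : (2 * c : ℝ) ≤ k := by nlinarith
    exact_mod_cast this
  have hl2 : 0 < log 2 := log_pos (by norm_num)
  constructor
  · rw [le_div_iff₀ hk0]
    have h2 := rcc_lower k c hc1 hck
    have h3 : ((2 : ℝ) ^ (c - 1)) ≤ rccOrder k c := by exact_mod_cast h2
    have h4 := log_le_log (by positivity) h3
    rw [log_pow, Nat.cast_sub hc1] at h4
    push_cast at h4
    have e : (ε - 2 / (k : ℝ)) * log 2 * k = (ε * k - 2) * log 2 := by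
      field_simp
    rw [e]
    nlinarith
  · rw [div_le_iff₀ hk0]
    have h2 := rcc_upper k c hk1 hc1
    have h3 : (k : ℝ) / c ≤ 2 / ε := by
      rw [div_le_div_iff₀ (by linarith) h0]
      nlinarith
    have h4 : 0 ≤ log (2 + (k : ℝ) / c) := log_nonneg (by
      have : 0 ≤ (k : ℝ) / c := by positivity
      linarith)
    have h5 : log (2 + (k : ℝ) / c) ≤ log (2 + 2 / ε) := log_le_log (by positivity) (by linarith)
    have h6 := pow_le_pow_left₀ h4 h5 2
    calc log (rccOrder k c) ≤ 400 * c * log (2 + (k : ℝ) / c) ^ 2 := h2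
      _ ≤ 400 * (ε * k) * log (2 + 2 / ε) ^ 2 := by
          refine mul_le_mul (by linarith) h6 (sq_nonneg _) (by positivity)
      _ = 400 * ε * log (2 + 2 / ε) ^ 2 * k := by ring

/-- The exponent for `c = k ^ θ`. -/
theorem exponent (θ : ℝ) (h0 : 0 < θ) (h1 : θ < 1) :
    Tendsto (fun k : ℕ => log (log (rccOrder k ⌊(k : ℝ) ^ θ⌋₊)) / log k) atTop (𝓝 θ) := by
  have hcast : Tendsto (fun k : ℕ => (k : ℝ)) atTop atTop := tendsto_natCast_atTop_atTop
  have hlog : Tendsto (fun k : ℕ => log (k : ℝ)) atTop atTop := tendsto_log_atTop.comp hcast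
  have hpow : Tendsto (fun k : ℕ => (k : ℝ) ^ θ) atTop atTop := (tendsto_rpow_atTop h0).comp hcast
  have hpow2 : Tendsto (fun k : ℕ => (k : ℝ) ^ (1 - θ)) atTop atTop :=
    (tendsto_rpow_atTop (by linarith)).comp hcast
  have hloglog : Tendsto (fun k : ℕ => log (log (k : ℝ)) / log (k : ℝ)) atTop (𝓝 0) := by
    have := Real.isLittleO_log_id_atTop.tendsto_div_nhds_zero
    exact this.comp hlog
  have hinv : Tendsto (fun k : ℕ => (1 : ℝ) / log (k : ℝ)) atTop (𝓝 0) := by
    have := tendsto_inv_atTop_zero.comp hlog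
    simpa [Function.comp_def, one_div] using this
  -- the error terms
  have hup : Tendsto (fun k : ℕ => θ + (log 400 + 2 * log 2) * (1 / log (k : ℝ)) +
      2 * (log (log (k : ℝ)) / log (k : ℝ))) atTop (𝓝 θ) := by
    have := ((tendsto_const_nhds (x := θ)).add (hinv.const_mul (log 400 + 2 * log 2))).add
      (hloglog.const_mul 2)
    simpa using this
  have hlow : Tendsto (fun k : ℕ => θ - (2 * log 2) * (1 / log (k : ℝ)) +
      log (log 2) * (1 / log (k : ℝ))) atTop (𝓝 θ) := by
    have := ((tendsto_const_nhds (x := θ)).sub (hinv.const_mul (2 * log 2))).add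
      (hinv.const_mul (log (log 2)))
    simpa using this
  have hl2 : 0 < log 2 := log_pos (by norm_num)
  refine tendsto_of_tendsto_of_tendsto_of_le_of_le' hlow hup ?_ ?_
  · filter_upwards [hpow.eventually_ge_atTop 4, hpow2.eventually_ge_atTop 2, hlog.eventually_gt_atTop 0,
      eventually_ge_atTop 2] with k hk1 hk2 hk3 hk4
    have hk0 : (0 : ℝ) < k := by
      have : (2 : ℝ) ≤ k := by exact_mod_cast hk4
      linarith
    set x := (k : ℝ) ^ θ with hx
    set c := ⌊x⌋₊ with hc
    have hc2 : (c : ℝ) ≤ x := Nat.floor_le (by positivity)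
    have hc3 : x < c + 1 := Nat.lt_floor_add_one _
    have hc1' : (3 : ℝ) < c := by linarith
    have hc1 : 1 ≤ c := by
      have : 3 < c := by exact_mod_cast hc1'
      omega
    have hmul : x * (k : ℝ) ^ (1 - θ) = k := by
      rw [hx, ← rpow_add hk0]
      simp
    have hck : 2 * c ≤ k := by
      have : (2 * c : ℝ) ≤ k := by nlinarith
      exact_mod_cast this
    have h2 := rcc_lower k c hc1 hck
    have h3 : ((2 : ℝ) ^ (c - 1)) ≤ rccOrder k c := by exact_mod_cast h2
    have h4 := log_le_log (by positivity) h3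
    rw [log_pow, Nat.cast_sub hc1] at h4
    push_cast at h4
    have h5 : x / 4 * log 2 ≤ log (rccOrder k c) := by nlinarith
    have h6 := log_le_log (by positivity) h5
    rw [log_mul (by positivity) hl2.ne', log_div (by positivity) (by norm_num), hx,
      log_rpow hk0, show (4 : ℝ) = 2 ^ 2 by norm_num, log_pow] at h6
    rw [le_div_iff₀ hk3]
    have e : (θ - (2 * log 2) * (1 / log (k : ℝ)) + log (log 2) * (1 / log (k : ℝ))) * log k =
        θ * log k - 2 * log 2 + log (log 2) := by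
      field_simp
    rw [e]
    push_cast at h6
    linarith
  · filter_upwards [hpow.eventually_ge_atTop 4, hpow2.eventually_ge_atTop 2,
      hlog.eventually_gt_atTop 1, eventually_ge_atTop 2] with k hk1 hk2 hk3 hk4
    have hk2' : (2 : ℝ) ≤ k := by exact_mod_cast hk4
    have hk0 : (0 : ℝ) < k := by linarith
    set x := (k : ℝ) ^ θ with hx
    set c := ⌊x⌋₊ with hc
    have hc2 : (c : ℝ) ≤ x := Nat.floor_le (by positivity)
    have hc3 : x < c + 1 := Nat.lt_floor_add_one _
    have hc1' : (3 : ℝ) < c := by linarith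
    have hc1 : 1 ≤ c := by
      have : 3 < c := by exact_mod_cast hc1'
      omega
    have hmul : x * (k : ℝ) ^ (1 - θ) = k := by
      rw [hx, ← rpow_add hk0]
      simp
    have hck : 2 * c ≤ k := by
      have : (2 * c : ℝ) ≤ k := by nlinarith
      exact_mod_cast this
    have h2 := rcc_upper k c (by omega) hc1
    have h3 : log (2 + (k : ℝ) / c) ≤ 2 * log k := by
      have e : 2 + (k : ℝ) / c ≤ k ^ 2 := by
        have : (k : ℝ) / c ≤ k / 3 := by
          gcongr
        nlinarith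
      have := log_le_log (by positivity) e
      rw [log_pow] at this
      exact_mod_cast this
    have h3' : 0 ≤ log (2 + (k : ℝ) / c) := log_nonneg (by
      have : 0 ≤ (k : ℝ) / c := by positivity
      linarith)
    have h4 := pow_le_pow_left₀ h3' h3 2
    have h5 : log (rccOrder k c) ≤ 400 * x * (2 * log k) ^ 2 := by
      refine h2.trans ?_
      exact mul_le_mul (by linarith) h4 (sq_nonneg _) (by positivity)
    have hpos : 0 < log (rccOrder k c) := by
      have h6 := rcc_lower k c hc1 hck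
      have h7 : 2 ^ 1 ≤ 2 ^ (c - 1) := Nat.pow_le_pow_right (by norm_num) (by
        have : 3 < c := by exact_mod_cast hc1'
        omega)
      have h8 : 2 ≤ rccOrder k c := by omega
      have h9 : (2 : ℝ) ≤ rccOrder k c := by exact_mod_cast h8
      exact log_pos (by linarith)
    have h6 := log_le_log hpos h5
    have hlk : 0 < log (k : ℝ) := by linarith
    rw [log_mul (by positivity) (by positivity), log_mul (by norm_num) (by positivity), log_pow,
      log_mul (by norm_num) hlk.ne', hx, log_rpow hk0] at h6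
    rw [div_le_iff₀ hlk]
    have e : (θ + (log 400 + 2 * log 2) * (1 / log (k : ℝ)) +
        2 * (log (log (k : ℝ)) / log (k : ℝ))) * log k =
        θ * log k + (log 400 + 2 * log 2) + 2 * log (log k) := by
      field_simp
    rw [e]
    push_cast at h6
    linarith

theorem log_ge_of_exp {V : Type} [Fintype V] {θ : ℝ} {k : ℕ} (h : exp (θ * k) ≤ Fintype.card V) :
    θ * k ≤ log (Fintype.card V) := by
  rw [← log_exp (θ * k)]
  exact log_le_log (exp_pos _) h

theorem linear_rand {V : Type} [Fintype V] {G : SimpleGraph V} {k c : ℕ} {θ : ℝ} (hθ : 0 < θ)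
    (hk : 1 ≤ k) (hc : 1 ≤ c) (hG : NoMono G k) (hn : exp (θ * k) ≤ Fintype.card V)
    (h : RandCost G c) : θ * k ≤ 500000 * c * log (2 + 1 / θ) ^ 2 := by
  have hc' : (0 : ℝ) < c := by
    have : (1 : ℝ) ≤ c := by exact_mod_cast hc
    linarith
  have hk' : (0 : ℝ) < k := by
    have : (1 : ℝ) ≤ k := by exact_mod_cast hk
    linarith
  have h1 := (log_ge_of_exp hn).trans (upper_rand hk hc hG.1 hG.2 h)
  have h2 : θ * ((k : ℝ) / c) ≤ 400 * log (2 + (k : ℝ) / c) ^ 2 := by
    rw [← mul_div_assoc, div_le_iff₀ hc']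
    linarith
  have h3 := invert 400 θ ((k : ℝ) / c) (by norm_num) (by norm_num) hθ (by positivity) h2
  rw [← mul_div_assoc, div_le_iff₀ hc'] at h3
  have h4 : 0 ≤ c * log (2 + 1 / θ) ^ 2 := by positivity
  linarith

theorem linear_rect {V : Type} [Fintype V] {G : SimpleGraph V} {k c : ℕ} {θ : ℝ} (hθ : 0 < θ)
    (hk : 1 ≤ k) (hc : 1 ≤ c) (hG : NoMono G k) (hn : exp (θ * k) ≤ Fintype.card V)
    (h : RectCost G c) : θ * k ≤ 250000 * c * log (2 + 1 / θ) ^ 2 := by
  have hc' : (0 : ℝ) < c := by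
    have : (1 : ℝ) ≤ c := by exact_mod_cast hc
    linarith
  have hk' : (0 : ℝ) < k := by
    have : (1 : ℝ) ≤ k := by exact_mod_cast hk
    linarith
  have h1 := (log_ge_of_exp hn).trans (upper_rect hk hc hG.1 hG.2 h)
  have h2 : θ * ((k : ℝ) / c) ≤ 200 * log (2 + (k : ℝ) / c) ^ 2 := by
    rw [← mul_div_assoc, div_le_iff₀ hc']
    linarith
  have h3 := invert 200 θ ((k : ℝ) / c) (by norm_num) (by norm_num) hθ (by positivity) h2
  rw [← mul_div_assoc, div_le_iff₀ hc'] at h3
  have h4 : 0 ≤ c * log (2 + 1 / θ) ^ 2 := by positivity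
  linarith

theorem linear_margin {V : Type} [Fintype V] {G : SimpleGraph V} {k : ℕ} {δ θ : ℝ} (hθ : 0 < θ)
    (hk : 1 ≤ k) (h0 : 0 < δ) (h1 : δ ≤ 1) (hG : NoMono G k) (hn : exp (θ * k) ≤ Fintype.card V)
    (h : Margin G δ) : θ * k * δ ≤ 1500000 * log (2 + 1 / θ) ^ 2 := by
  have hk' : (0 : ℝ) < k := by
    have : (1 : ℝ) ≤ k := by exact_mod_cast hk
    linarith
  have h2 := (log_ge_of_exp hn).trans (upper_margin hk h0 h1 hG.1 hG.2 h)
  have h3 : θ * (δ * k) ≤ 1200 * log (2 + δ * k) ^ 2 := by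
    have e : 1200 / δ * log (2 + δ * k) ^ 2 * δ = 1200 * log (2 + δ * k) ^ 2 := by
      field_simp
    have := mul_le_mul_of_nonneg_right h2 h0.le
    rw [e] at this
    linarith
  have h4 := invert 1200 θ (δ * k) (by norm_num) (by norm_num) hθ (by positivity) h3
  have h5 : 0 ≤ log (2 + 1 / θ) ^ 2 := by positivity
  linarith

theorem extremal_exp {V : Type} [Fintype V] {k : ℕ} (hk : 12 ≤ k)
    (hn : Fintype.card V + 1 = ramsey k) : exp ((1 / 6 : ℝ) * k) ≤ Fintype.card V := by
  have h1 := TW.ramsey_lower k (by omega)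
  have h2 : ((Fintype.card V : ℕ) : ℝ) = (ramsey k : ℝ) - 1 := by
    have : ((Fintype.card V + 1 : ℕ) : ℝ) = ramsey k := by exact_mod_cast hn
    push_cast at this
    linarith
  rw [h2]
  refine le_trans (exp_le_exp.mpr ?_) h1
  have h3 := log_two_gt_d9
  have h4 : (12 : ℝ) ≤ k := by exact_mod_cast hk
  nlinarith

theorem log_eight : log (2 + 1 / (1 / 6 : ℝ)) ^ 2 ≤ 5 := by
  have h1 : log (2 + 1 / (1 / 6 : ℝ)) = 3 * log 2 := by
    rw [show (2 + 1 / (1 / 6 : ℝ)) = 2 ^ 3 by norm_num, log_pow]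
    norm_num
  rw [h1]
  have h2 := log_two_gt_d9
  have h3 := log_two_lt_d9
  nlinarith

theorem extremal {V : Type} [Fintype V] {G : SimpleGraph V} {k : ℕ} (hk : 1 ≤ k)
    (hG : NoMono G k) (hn : Fintype.card V + 1 = ramsey k) :
    RandCost G (2 * k + 1) ∧ (∀ c : ℕ, 1 ≤ c → RandCost G c → (k : ℝ) ≤ 15000000 * c) ∧
      (∀ c : ℕ, 1 ≤ c → RectCost G c → (k : ℝ) ≤ 7500000 * c) ∧
      (∀ δ : ℝ, 0 < δ → δ ≤ 1 → Margin G δ → δ ≤ 45000000 / k) := by
  have hk0 : (1 : ℝ) ≤ k := by exact_mod_cast hk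
  refine ⟨?_, ?_, ?_, ?_⟩
  · refine randCost_of_card G (2 * k) ?_
    rw [pow_mul]
    exact (card_lt_four_pow hG.1 hG.2).le
  · intro c hc h
    have hc' : (1 : ℝ) ≤ c := by exact_mod_cast hc
    rcases le_or_gt 12 k with h12 | h12
    · have h1 := linear_rand (by norm_num) hk hc hG (extremal_exp h12 hn) h
      have h2 := log_eight
      nlinarith
    · have : (k : ℝ) < 12 := by exact_mod_cast h12
      linarith
  · intro c hc h
    have hc' : (1 : ℝ) ≤ c := by exact_mod_cast hc
    rcases le_or_gt 12 k with h12 | h12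
    · have h1 := linear_rect (by norm_num) hk hc hG (extremal_exp h12 hn) h
      have h2 := log_eight
      nlinarith
    · have : (k : ℝ) < 12 := by exact_mod_cast h12
      linarith
  · intro δ h0 h1 h
    rw [le_div_iff₀ (by linarith)]
    rcases le_or_gt 12 k with h12 | h12
    · have h2 := linear_margin (by norm_num) hk h0 h1 hG (extremal_exp h12 hn) h
      have h3 := log_eight
      nlinarith
    · have : (k : ℝ) < 12 := by exact_mod_cast h12
      nlinarith

end Pool.Agent.N920.CC
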