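import Pool.Agent.N920.CC.Protocol

/-!
# The upper bound for the order of Ramsey colourings of low rectangle cost
-/

set_option autoImplicit false

namespace Pool.Agent.N920.CC

open Finset Real

open Classical

variable {V : Type}

theorem choose_bound (K c m : ℕ) (hK : K ≤ c * m) : (K + c).choose c ≤ (3 * (m + 1)) ^ c := by
  have hm : (0 : ℝ) < (m : ℝ) + 1 := by positivity
  set x : ℝ := 1 / ((m : ℝ) + 1) with hx
  have hx0 : 0 < x := by positivity
  have h1 : x ^ c * ((K + c).choose c : ℝ) ≤ (x + 1) ^ (K + c) := by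
    rw [add_pow]
    have := single_le_sum (f := fun i => x ^ i * 1 ^ (K + c - i) * ((K + c).choose i : ℝ))
      (s := range (K + c + 1)) (fun i _ => by positivity) (mem_range.mpr (by omega : c < K + c + 1))
    simpa using this
  have h2 : (x + 1) ^ (K + c) ≤ 3 ^ c := by
    have h3 : ((K + c : ℕ) : ℝ) * x ≤ c := by
      rw [hx, mul_one_div, div_le_iff₀ hm]
      have : K + c ≤ c * (m + 1) := by nlinarith
      exact_mod_cast this
    calc (x + 1) ^ (K + c) ≤ (exp x) ^ (K + c) :=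
          pow_le_pow_left₀ (by positivity) (add_one_le_exp x) _
      _ = exp (((K + c : ℕ) : ℝ) * x) := by rw [← exp_nat_mul]
      _ ≤ exp c := exp_le_exp.mpr h3
      _ = exp 1 ^ c := by rw [← exp_nat_mul, mul_one]
      _ ≤ 3 ^ c := pow_le_pow_left₀ (exp_pos 1).le (by linarith [exp_one_lt_d9]) _
  have h4 : ((K + c).choose c : ℝ) ≤ (3 * ((m : ℝ) + 1)) ^ c := by
    have h5 : ((m : ℝ) + 1) ^ c * x ^ c = 1 := by
      rw [← mul_pow, hx, mul_one_div, div_self hm.ne', one_pow]
    calc ((K + c).choose c : ℝ) = ((m : ℝ) + 1) ^ c * (x ^ c * ((K + c).choose c : ℝ)) := by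
          rw [← mul_assoc, h5, one_mul]
      _ ≤ ((m : ℝ) + 1) ^ c * 3 ^ c := by
          refine mul_le_mul_of_nonneg_left (h1.trans h2) (by positivity)
      _ = (3 * ((m : ℝ) + 1)) ^ c := by rw [mul_pow]; ring
  exact_mod_cast h4

/-- The bound in powers of two. -/
theorem card_lt_two_pow [Fintype V] {G : SimpleGraph V} {k c p : ℕ} (hk : 1 ≤ k) (hc : 1 ≤ c)
    (hG : G.CliqueFree k) (hG' : Gᶜ.CliqueFree k) (h : RectCost G c) (hp : k ≤ c * 2 ^ p) :
    Fintype.card V < 2 ^ (8 * c * (p + 4) ^ 2) := by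
  obtain ⟨k', rfl⟩ : ∃ k', k = k' + 1 := ⟨k - 1, by omega⟩
  have h1 := card_lt G k' c (2 ^ (p + 2)) (2 ^ (c * (p + 2 + 2) + 2)) (4 * p)
    (by
      calc 4 = 2 ^ 2 := by norm_num
        _ ≤ 2 ^ (p + 2) := Nat.pow_le_pow_right (by norm_num) (by omega)) hc
    Nat.one_le_two_pow (by
      have : c * 2 ^ (p + 2) = 4 * (c * 2 ^ p) := by rw [pow_add]; ring
      omega) hG hG' (h.pairProp (p + 2)) (by
      have e1 : 2 ^ (4 * p) * k' ^ 2 < 2 ^ (4 * p) * (c * 2 ^ p) ^ 2 := by
        refine Nat.mul_lt_mul_of_pos_left ?_ (by positivity)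
        exact Nat.pow_lt_pow_left (by omega) (by norm_num)
      have e2 : 2 ^ (4 * p) * (c * 2 ^ p) ^ 2 = 64 ^ p * c ^ 2 := by
        rw [mul_pow, ← pow_mul, pow_mul, mul_comm p 2, pow_mul 2 2 p]
        calc (2 ^ 4) ^ p * (c ^ 2 * (2 ^ 2) ^ p) = ((2 ^ 4) * (2 ^ 2)) ^ p * c ^ 2 := by
              rw [mul_pow]; ring
          _ = 64 ^ p * c ^ 2 := by norm_num
      have e3 : 64 ^ p * c ^ 2 ≤ 3 ^ (4 * p) * c ^ 2 := by
        refine Nat.mul_le_mul_right _ ?_
        rw [pow_mul]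
        exact Nat.pow_le_pow_left (by norm_num) p
      omega)
  refine lt_of_lt_of_le h1 ?_
  have h2 : (k' + 1 + c).choose c ≤ 2 ^ (c * (p + 3)) := by
    calc (k' + 1 + c).choose c ≤ (3 * (2 ^ p + 1)) ^ c := choose_bound _ _ _ hp
      _ ≤ (2 ^ (p + 3)) ^ c := by
          refine Nat.pow_le_pow_left ?_ c
          have : 1 ≤ 2 ^ p := Nat.one_le_two_pow
          rw [pow_add]
          omega
      _ = 2 ^ (c * (p + 3)) := by rw [← pow_mul, mul_comm]
  have h3 : (k' + c).choose c ≤ 2 ^ (c * (p + 3)) :=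
    (Nat.choose_le_choose c (by omega)).trans h2
  calc (k' + 1 + c).choose c * (6 * 2 ^ (c * (p + 2 + 2) + 2) * (k' + c).choose c) ^ (4 * p)
      ≤ 2 ^ (c * (p + 3)) * (2 ^ 3 * 2 ^ (c * (p + 2 + 2) + 2) * 2 ^ (c * (p + 3))) ^ (4 * p) := by
        gcongr
        norm_num
    _ = 2 ^ (c * (p + 3) + (3 + (c * (p + 2 + 2) + 2) + c * (p + 3)) * (4 * p)) := by
        rw [← pow_add, ← pow_add, ← pow_mul, ← pow_add]
    _ ≤ 2 ^ (8 * c * (p + 4) ^ 2) := by
        refine Nat.pow_le_pow_right (by norm_num) ?_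
        nlinarith [Nat.mul_le_mul_right p hc, Nat.zero_le (c * p), Nat.zero_le (c * p ^ 2)]

theorem card_lt_four_pow [Fintype V] {G : SimpleGraph V} {k : ℕ} (hG : G.CliqueFree k)
    (hG' : Gᶜ.CliqueFree k) : Fintype.card V < 4 ^ k := by
  by_contra hcon
  push Not at hcon
  have h1 : (k + k).choose k ≤ (univ : Finset V).card := by
    rw [card_univ]
    refine le_trans ?_ hcon
    calc (k + k).choose k ≤ 2 ^ (k + k) := Nat.choose_le_two_pow _ _
      _ = 4 ^ k := by rw [← two_mul, pow_mul]; norm_num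
  have hQ : ∀ (H : SimpleGraph V), H.CliqueFree k → ∀ Q : Finset V, Cl H Q → Q.card = k → False := by
    intro H hH Q hQ hc
    refine hH Q ?_
    rw [SimpleGraph.isNClique_iff]
    exact ⟨fun u hu v hv huv => hQ u hu v hv huv, hc⟩
  rcases es G _ k k rfl univ h1 with ⟨Q, _, h2, h3⟩ | ⟨P, _, h2, h3⟩
  · exact hQ G hG Q h3 h2
  · exact hQ Gᶜ hG' P (in_compl h3) h2

theorem log_three_lower : 19 / 12 * log 2 ≤ log 3 := by
  have h1 : log ((2 : ℝ) ^ 19) ≤ log ((3 : ℝ) ^ 12) := log_le_log (by norm_num) (by norm_num)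
  rw [log_pow, log_pow] at h1
  push_cast at h1
  linarith

/-- The main upper bound. -/
theorem upper_rect [Fintype V] {G : SimpleGraph V} {k c : ℕ} (hk : 1 ≤ k) (hc : 1 ≤ c)
    (hG : G.CliqueFree k) (hG' : Gᶜ.CliqueFree k) (h : RectCost G c) :
    log (Fintype.card V) ≤ 200 * c * log (2 + (k : ℝ) / c) ^ 2 := by
  have hl2 := log_two_gt_d9
  have hl2' := log_two_lt_d9
  have hc' : (1 : ℝ) ≤ c := by exact_mod_cast hc
  have hk' : (1 : ℝ) ≤ k := by exact_mod_cast hk
  have hkc : 0 < (k : ℝ) / c := by positivity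
  have hL2 : log 2 ≤ log (2 + (k : ℝ) / c) := log_le_log (by norm_num) (by linarith)
  rcases Nat.eq_zero_or_pos (Fintype.card V) with h0 | h0
  · rw [h0]
    simp only [Nat.cast_zero, log_zero]
    positivity
  have h0' : (0 : ℝ) < Fintype.card V := by exact_mod_cast h0
  rcases le_or_gt k c with hkc2 | hkc2
  · have h1 := card_lt_four_pow hG hG'
    have h2 : (Fintype.card V : ℝ) ≤ 4 ^ k := by exact_mod_cast h1.le
    have h3 : log (Fintype.card V) ≤ k * log 4 := by
      rw [← log_pow]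
      exact log_le_log h0' h2
    have h4 : log 4 = 2 * log 2 := by
      rw [show (4 : ℝ) = 2 ^ 2 by norm_num, log_pow]
      norm_num
    have h5 : (k : ℝ) ≤ c := by exact_mod_cast hkc2
    have h6 : (0.48 : ℝ) ≤ log (2 + (k : ℝ) / c) ^ 2 := by nlinarith
    rw [h4] at h3
    nlinarith
  · -- `m` is the quotient rounded up
    set m := (k + c - 1) / c with hm
    have hcm : k ≤ c * m := by
      have h1 := Nat.div_add_mod (k + c - 1) c
      have h2 := Nat.mod_lt (k + c - 1) hc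
      rw [← hm] at h1
      omega
    have hcm2 : c * m ≤ k + c - 1 := Nat.mul_div_le _ _
    set p := Nat.clog 2 m with hp
    have hmp : m ≤ 2 ^ p := Nat.le_pow_clog (by norm_num) m
    have h1 := card_lt_two_pow hk hc hG hG' h (hcm.trans (Nat.mul_le_mul_left c hmp))
    have h2 : (Fintype.card V : ℝ) ≤ 2 ^ (8 * c * (p + 4) ^ 2) := by exact_mod_cast h1.le
    have h3 : log (Fintype.card V) ≤ (8 * c * (p + 4) ^ 2 : ℕ) * log 2 := by
      rw [← log_pow]
      exact log_le_log h0' h2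
    push_cast at h3
    -- `p` is small
    have hm1 : (m : ℝ) ≤ 1 + (k : ℝ) / c := by
      have e1 : ((c * m : ℕ) : ℝ) ≤ k + c := by
        have : c * m ≤ k + c := by omega
        exact_mod_cast this
      push_cast at e1
      have e2 : (m : ℝ) ≤ (k + c) / c := by
        rw [le_div_iff₀ (by positivity)]
        linarith
      have e3 : ((k : ℝ) + c) / c = 1 + (k : ℝ) / c := by field_simp; ring
      linarith
    have hp1 : ((p : ℝ) - 1) * log 2 ≤ log (2 + (k : ℝ) / c) := by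
      rcases Nat.eq_zero_or_pos p with h4 | h4
      · rw [h4]
        push_cast
        nlinarith
      · have hm2 : 1 < m := by
          by_contra hcon
          push Not at hcon
          have : p = 0 := by
            rw [hp]
            exact Nat.clog_of_right_le_one hcon 2
          omega
        have e1 : 2 ^ (p - 1) < m := by
          have := Nat.pow_pred_clog_lt_self (b := 2) (by norm_num) hm2
          rwa [Nat.pred_eq_sub_one, ← hp] at this
        have e2 : ((2 : ℝ) ^ (p - 1)) ≤ 2 + (k : ℝ) / c := by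
          have : ((2 ^ (p - 1) : ℕ) : ℝ) ≤ m := by exact_mod_cast e1.le
          push_cast at this
          linarith
        have e3 := log_le_log (by positivity) e2
        rw [log_pow] at e3
        rw [Nat.cast_sub h4] at e3
        simpa using e3
    have hL3 : 19 / 12 * log 2 ≤ log (2 + (k : ℝ) / c) := by
      refine log_three_lower.trans (log_le_log (by norm_num) ?_)
      have : (1 : ℝ) ≤ (k : ℝ) / c := by
        rw [le_div_iff₀ (by positivity), one_mul]
        exact_mod_cast hkc2.le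
      linarith
    set L := log (2 + (k : ℝ) / c) with hL
    have hp6 : (p : ℝ) + 4 ≤ 6 * L := by
      have e4 : ((p : ℝ) + 4) * log 2 ≤ (79 / 19) * L := by nlinarith
      nlinarith
    have hp0 : (0 : ℝ) ≤ (p : ℝ) + 4 := by positivity
    have hsq : ((p : ℝ) + 4) ^ 2 ≤ 36 * L ^ 2 := by nlinarith
    calc log (Fintype.card V) ≤ 8 * c * ((p : ℝ) + 4) ^ 2 * log 2 := h3
      _ = (8 * c * log 2) * ((p : ℝ) + 4) ^ 2 := by ring
      _ ≤ (8 * c * log 2) * (36 * L ^ 2) := mul_le_mul_of_nonneg_left hsq (by positivity)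
      _ = (288 * log 2) * (c * L ^ 2) := by ring
      _ ≤ 200 * (c * L ^ 2) := mul_le_mul_of_nonneg_right (by linarith) (by positivity)
      _ = 200 * c * L ^ 2 := by ring

/-- The bound for randomized protocols. -/
theorem upper_rand [Fintype V] {G : SimpleGraph V} {k c : ℕ} (hk : 1 ≤ k) (hc : 1 ≤ c)
    (hG : G.CliqueFree k) (hG' : Gᶜ.CliqueFree k) (h : RandCost G c) :
    log (Fintype.card V) ≤ 400 * c * log (2 + (k : ℝ) / c) ^ 2 := by
  have h1 := upper_rect hk (by omega : 1 ≤ c + 1) hG hG' h.rectCost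
  have hc' : (1 : ℝ) ≤ c := by exact_mod_cast hc
  have hk' : (1 : ℝ) ≤ k := by exact_mod_cast hk
  have h2 : log (2 + (k : ℝ) / ((c + 1 : ℕ) : ℝ)) ≤ log (2 + (k : ℝ) / c) := by
    refine log_le_log (by positivity) ?_
    gcongr
    linarith
  have h3 : 0 ≤ log (2 + (k : ℝ) / ((c + 1 : ℕ) : ℝ)) := by
    refine log_nonneg ?_
    have : 0 ≤ (k : ℝ) / ((c + 1 : ℕ) : ℝ) := by positivity
    linarith
  have h4 := pow_le_pow_left₀ h3 h2 2
  calc log (Fintype.card V) ≤ 200 * ((c + 1 : ℕ) : ℝ) * log (2 + (k : ℝ) / ((c + 1 : ℕ) : ℝ)) ^ 2 := h1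
    _ ≤ 200 * (2 * c) * log (2 + (k : ℝ) / c) ^ 2 := by
        push_cast at h4 ⊢
        refine mul_le_mul (by linarith) h4 (sq_nonneg _) (by positivity)
    _ = 400 * c * log (2 + (k : ℝ) / c) ^ 2 := by ring

/-- The bound for the discrepancy. -/
theorem upper_margin [Fintype V] {G : SimpleGraph V} {k : ℕ} {δ : ℝ} (hk : 1 ≤ k) (h0 : 0 < δ)
    (h1 : δ ≤ 1) (hG : G.CliqueFree k) (hG' : Gᶜ.CliqueFree k) (h : Margin G δ) :
    log (Fintype.card V) ≤ 1200 / δ * log (2 + δ * k) ^ 2 := by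
  set t := ⌈2 / δ⌉₊ with ht
  have h2 : 2 / δ ≤ t := Nat.le_ceil _
  have hδ : 1 ≤ 1 / δ := by rwa [le_div_iff₀ h0, one_mul]
  have h3 : (t : ℝ) ≤ 3 / δ := by
    have := (Nat.ceil_lt_add_one (show 0 ≤ 2 / δ by positivity)).le
    rw [← ht] at this
    have e : 3 / δ = 2 / δ + 1 / δ := by ring
    linarith
  have hk' : (1 : ℝ) ≤ k := by exact_mod_cast hk
  have ht0 : (0 : ℝ) < t := lt_of_lt_of_le (by positivity) h2
  have ht1 : 1 ≤ t := by exact_mod_cast ht0
  have h4 := upper_rect hk (by omega : 1 ≤ 2 * t) hG hG' (rectCost_of_margin h0 h1 h t h2)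
  have h5 : log (2 + (k : ℝ) / ((2 * t : ℕ) : ℝ)) ≤ log (2 + δ * k) := by
    refine log_le_log (by positivity) ?_
    have : (k : ℝ) / ((2 * t : ℕ) : ℝ) ≤ δ * k := by
      rw [div_le_iff₀ (by positivity)]
      push_cast
      have e : 2 ≤ t * δ := by rwa [div_le_iff₀ h0] at h2
      nlinarith
    linarith
  have h6 : 0 ≤ log (2 + (k : ℝ) / ((2 * t : ℕ) : ℝ)) := by
    refine log_nonneg ?_
    have : 0 ≤ (k : ℝ) / ((2 * t : ℕ) : ℝ) := by positivity
    linarith
  have h7 := pow_le_pow_left₀ h6 h5 2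
  calc log (Fintype.card V) ≤ 200 * ((2 * t : ℕ) : ℝ) * log (2 + (k : ℝ) / ((2 * t : ℕ) : ℝ)) ^ 2 := h4
    _ ≤ 200 * (2 * (3 / δ)) * log (2 + δ * k) ^ 2 := by
        push_cast at h7 ⊢
        refine mul_le_mul (by linarith) h7 (sq_nonneg _) (by positivity)
    _ = 1200 / δ * log (2 + δ * k) ^ 2 := by ring

/-- Inversion of the bound. -/
theorem invert (A θ x : ℝ) (hA : 1 ≤ A) (hA2 : A ≤ 2048) (hθ : 0 < θ) (hx : 0 < x)
    (h : θ * x ≤ A * log (2 + x) ^ 2) : θ * x ≤ 1156 * A * log (2 + 1 / θ) ^ 2 := by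
  have hL2 : log 2 ≤ log (2 + 1 / θ) := log_le_log (by norm_num) (by
    have : 0 < 1 / θ := by positivity
    linarith)
  set L := log (2 + 1 / θ) with hL
  have hl2 := log_two_gt_d9
  have hy : 0 ≤ log (2 + x) := log_nonneg (by linarith)
  suffices hs : log (2 + x) ≤ 34 * L by
    have h1 : log (2 + x) ^ 2 ≤ (34 * L) ^ 2 := pow_le_pow_left₀ hy hs 2
    nlinarith
  rcases le_or_gt x 2 with h2 | h2
  · have h3 : log (2 + x) ≤ log (2 ^ 2) := log_le_log (by linarith) (by linarith)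
    rw [log_pow] at h3
    push_cast at h3
    linarith
  · set s := Real.sqrt (2 + x) with hs
    set r := Real.sqrt s with hr
    have hs2 : s ^ 2 = 2 + x := Real.sq_sqrt (by linarith)
    have hs0 : 0 < s := Real.sqrt_pos.mpr (by linarith)
    have hr2 : r ^ 2 = s := Real.sq_sqrt hs0.le
    have hr0 : 0 < r := Real.sqrt_pos.mpr hs0
    have h3 : log (2 + x) = 4 * log r := by
      rw [← hs2, ← hr2, ← pow_mul, log_pow]
      norm_num
    have h4 : log r ≤ r := (log_le_sub_one_of_pos hr0).trans (by linarith)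
    have h5 : log (2 + x) ^ 2 ≤ 16 * s := by
      have h6 : log (2 + x) ≤ 4 * r := by linarith
      have := pow_le_pow_left₀ hy h6 2
      calc log (2 + x) ^ 2 ≤ (4 * r) ^ 2 := this
        _ = 16 * r ^ 2 := by ring
        _ = 16 * s := by rw [hr2]
    have h6 : θ * s ^ 2 ≤ 32 * A * s := by
      have e1 : A * log (2 + x) ^ 2 ≤ A * (16 * s) := mul_le_mul_of_nonneg_left h5 (by linarith)
      have e2 : θ * s ^ 2 ≤ 2 * (θ * x) := by
        rw [hs2]
        nlinarith
      linarith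
    have h7 : θ * s ≤ 32 * A := by
      have : (θ * s) * s ≤ (32 * A) * s := by nlinarith
      exact le_of_mul_le_mul_right this hs0
    have h8 : s ≤ 2 ^ 16 * (2 + 1 / θ) := by
      have e1 : s ≤ 32 * A / θ := by
        rw [le_div_iff₀ hθ]
        linarith
      have e2 : 32 * A / θ ≤ 2 ^ 16 * (1 / θ) := by
        rw [mul_one_div]
        gcongr
        linarith
      linarith
    have h9 : log s ≤ 16 * log 2 + L := by
      have e1 := log_le_log hs0 h8
      rw [log_mul (by positivity) (by positivity), log_pow] at e1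
      push_cast at e1
      exact e1
    have h10 : log (2 + x) = 2 * log s := by
      rw [← hs2, log_pow]
      norm_num
    rw [h10]
    linarith

end Pool.Agent.N920.CC
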