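import Mathlib

/-!
# From homogeneous pairs of sets to homogeneous sets
-/

set_option autoImplicit false

namespace Pool.Agent.N920.CC

open Finset

open Classical

variable {V : Type}

/-- `Q` is a clique of `G`. -/
def Cl (G : SimpleGraph V) (Q : Finset V) : Prop := ∀ u ∈ Q, ∀ v ∈ Q, u ≠ v → G.Adj u v

/-- `P` is independent in `G`. -/
def In (G : SimpleGraph V) (P : Finset V) : Prop := ∀ u ∈ P, ∀ v ∈ P, ¬ G.Adj u v

theorem cl_compl {G : SimpleGraph V} {Q : Finset V} (h : Cl G Q) : In Gᶜ Q := by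
  intro u hu v hv hc
  rw [SimpleGraph.compl_adj] at hc
  exact hc.2 (h u hu v hv hc.1)

theorem in_compl {G : SimpleGraph V} {Q : Finset V} (h : In G Q) : Cl Gᶜ Q := by
  intro u hu v hv hc
  rw [SimpleGraph.compl_adj]
  exact ⟨hc, h u hu v hv⟩

theorem es (G : SimpleGraph V) : ∀ n s t : ℕ, s + t = n → ∀ U : Finset V,
    (s + t).choose s ≤ U.card →
    (∃ Q ⊆ U, Q.card = s ∧ Cl G Q) ∨ (∃ P ⊆ U, P.card = t ∧ In G P) := by
  intro n
  induction n with
  | zero =>
    intro s t hst U _
    left
    exact ⟨∅, empty_subset _, by simp; omega, by intro u hu; simp at hu⟩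
  | succ n ih =>
    intro s t hst U hU
    rcases Nat.eq_zero_or_pos s with hs | hs
    · left
      exact ⟨∅, empty_subset _, by simp [hs], by intro u hu; simp at hu⟩
    rcases Nat.eq_zero_or_pos t with ht | ht
    · right
      exact ⟨∅, empty_subset _, by simp [ht], by intro u hu; simp at hu⟩
    obtain ⟨s', rfl⟩ : ∃ s', s = s' + 1 := ⟨s - 1, by omega⟩
    obtain ⟨t', rfl⟩ : ∃ t', t = t' + 1 := ⟨t - 1, by omega⟩
    have hpas : (s' + 1 + (t' + 1)).choose (s' + 1) =
        (s' + (t' + 1)).choose s' + (s' + 1 + t').choose (s' + 1) := by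
      have h1 : s' + 1 + (t' + 1) = (s' + t' + 1) + 1 := by ring
      have h2 : s' + (t' + 1) = s' + t' + 1 := by ring
      have h3 : s' + 1 + t' = s' + t' + 1 := by ring
      rw [h1, h2, h3, Nat.choose_succ_succ]
    have hpos : 0 < U.card := lt_of_lt_of_le (Nat.choose_pos (by omega)) hU
    obtain ⟨x, hx⟩ := card_pos.mp hpos
    set A := (U.erase x).filter (fun v => G.Adj x v) with hA
    set B := (U.erase x).filter (fun v => ¬ G.Adj x v) with hB
    have hAB : A.card + B.card + 1 = U.card := by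
      rw [hA, hB, card_filter_add_card_filter_not, card_erase_of_mem hx]
      omega
    have hAU : A ⊆ U := fun y hy => mem_of_mem_erase (mem_filter.mp hy).1
    have hBU : B ⊆ U := fun y hy => mem_of_mem_erase (mem_filter.mp hy).1
    have hxA : x ∉ A := fun h => (notMem_erase x U) (mem_filter.mp h).1
    have hxB : x ∉ B := fun h => (notMem_erase x U) (mem_filter.mp h).1
    rw [hpas] at hU
    by_cases hc : (s' + (t' + 1)).choose s' ≤ A.card
    · rcases ih s' (t' + 1) (by omega) A hc with ⟨Q, hQ1, hQ2, hQ3⟩ | ⟨P, hP1, hP2, hP3⟩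
      · left
        refine ⟨insert x Q, insert_subset hx (hQ1.trans hAU), ?_, ?_⟩
        · rw [card_insert_of_notMem (fun h => hxA (hQ1 h)), hQ2]
        · intro u hu v hv huv
          rw [mem_insert] at hu hv
          rcases hu with rfl | hu
          · rcases hv with rfl | hv
            · exact absurd rfl huv
            · exact (mem_filter.mp (hQ1 hv)).2
          · rcases hv with rfl | hv
            · exact ((mem_filter.mp (hQ1 hu)).2).symm
            · exact hQ3 u hu v hv huv
      · right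
        exact ⟨P, hP1.trans hAU, hP2, hP3⟩
    · have hc' : (s' + 1 + t').choose (s' + 1) ≤ B.card := by omega
      rcases ih (s' + 1) t' (by omega) B hc' with ⟨Q, hQ1, hQ2, hQ3⟩ | ⟨P, hP1, hP2, hP3⟩
      · left
        exact ⟨Q, hQ1.trans hBU, hQ2, hQ3⟩
      · right
        refine ⟨insert x P, insert_subset hx (hP1.trans hBU), ?_, ?_⟩
        · rw [card_insert_of_notMem (fun h => hxB (hP1 h)), hP2]
        · intro u hu v hv
          rw [mem_insert] at hu hv
          rcases hu with rfl | hu
          · rcases hv with rfl | hv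
            · exact G.irrefl
            · exact (mem_filter.mp (hP1 hv)).2
          · rcases hv with rfl | hv
            · exact fun h => (mem_filter.mp (hP1 hu)).2 h.symm
            · exact hP3 u hu v hv

/-- `U` contains an independent set `P` and a clique `Q` with `x ≤ y |P| |Q|`. -/
def HasPair (G : SimpleGraph V) (U : Finset V) (x y : ℕ) : Prop :=
  ∃ P Q : Finset V, P ⊆ U ∧ Q ⊆ U ∧ In G P ∧ Cl G Q ∧ x ≤ y * (P.card * Q.card)

theorem HasPair.compl {G : SimpleGraph V} {U : Finset V} {x y : ℕ} (h : HasPair G U x y) :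
    HasPair Gᶜ U x y := by
  obtain ⟨P, Q, h1, h2, h3, h4, h5⟩ := h
  exact ⟨Q, P, h2, h1, cl_compl h4, in_compl h3, by rwa [mul_comm Q.card P.card]⟩

/-- Number of subsets with at most `c` elements. -/
theorem card_small_subsets (P : Finset V) (c k : ℕ) (hk : P.card ≤ k) :
    (P.powerset.filter (fun S => S.card ≤ c)).card ≤ (k + c).choose c := by
  have h1 : P.powerset.filter (fun S => S.card ≤ c) ⊆
      (range (c + 1)).biUnion (fun i => P.powersetCard i) := by
    intro S hS
    rw [mem_filter, mem_powerset] at hS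
    rw [mem_biUnion]
    exact ⟨S.card, mem_range.mpr (by omega), mem_powersetCard.mpr ⟨hS.1, rfl⟩⟩
  refine (card_le_card h1).trans (card_biUnion_le.trans ?_)
  simp only [card_powersetCard]
  rw [Nat.add_choose_eq, Finset.Nat.sum_antidiagonal_eq_sum_range_succ_mk]
  refine sum_le_sum ?_
  intro i hi
  rw [mem_range] at hi
  have h2 : 1 ≤ c.choose (c - i) := Nat.choose_pos (by omega)
  calc P.card.choose i ≤ k.choose i := Nat.choose_le_choose i hk
    _ = k.choose i * 1 := (mul_one _).symm
    _ ≤ k.choose i * c.choose (c - i) := Nat.mul_le_mul_left _ h2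

/-- The sparse step: between `U'` and `W'` there are few edges. -/
theorem sparse_step (G : SimpleGraph V) (k c D N x y : ℕ) (hD : 4 ≤ D) (hx : 0 < x)
    (hDk : 2 * k ≤ c * D)
    (hP : ∀ P : Finset V, In G P → P.card ≤ k)
    (hN : ∀ U : Finset V, N ≤ U.card → HasPair G U x y)
    (U' W' : Finset V) (hdis : Disjoint U' W') (h1 : N ≤ U'.card)
    (h2 : 2 * (k + c).choose c * N ≤ W'.card)
    (h3 : ∀ u ∈ U', D * (W'.filter (fun v => G.Adj u v)).card ≤ W'.card) :
    HasPair G (U' ∪ W') (3 * x) (2 * y) := by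
  obtain ⟨P', Q', hPU, hQU, hPi, hQc, hpq⟩ := hN U' h1
  have hPk := hP P' hPi
  have hPpos : 0 < P'.card := by
    rcases Nat.eq_zero_or_pos P'.card with h | h
    · rw [h] at hpq
      simp at hpq
      omega
    · exact h
  set tr : V → Finset V := fun v => P'.filter (fun u => G.Adj u v) with htr
  have hsum : D * ∑ v ∈ W', (tr v).card ≤ P'.card * W'.card := by
    have e1 : ∑ v ∈ W', (tr v).card = ∑ u ∈ P', (W'.filter (fun v => G.Adj u v)).card := by
      simp only [htr, card_filter]
      rw [sum_comm]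
    rw [e1, mul_sum]
    calc ∑ u ∈ P', D * (W'.filter (fun v => G.Adj u v)).card ≤ ∑ _u ∈ P', W'.card :=
          sum_le_sum (fun u hu => h3 u (hPU hu))
      _ = P'.card * W'.card := by rw [sum_const, smul_eq_mul]
  set W1 := W'.filter (fun v => D * (tr v).card ≤ 2 * P'.card) with hW1
  have hW1c : W'.card ≤ 2 * W1.card := by
    set W2 := W'.filter (fun v => ¬ D * (tr v).card ≤ 2 * P'.card) with hW2
    have e2 : W1.card + W2.card = W'.card := by
      rw [hW1, hW2, card_filter_add_card_filter_not]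
    have e3 : W2.card * (2 * P'.card) ≤ P'.card * W'.card := by
      calc W2.card * (2 * P'.card) = ∑ _v ∈ W2, 2 * P'.card := by rw [sum_const, smul_eq_mul]
        _ ≤ ∑ v ∈ W2, D * (tr v).card := by
            refine sum_le_sum ?_
            intro v hv
            rw [hW2, mem_filter] at hv
            omega
        _ ≤ ∑ v ∈ W', D * (tr v).card := sum_le_sum_of_subset (filter_subset _ _)
        _ = D * ∑ v ∈ W', (tr v).card := by rw [mul_sum]
        _ ≤ P'.card * W'.card := hsum
    have e4 : 2 * W2.card ≤ W'.card := by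
      by_contra hcon
      push Not at hcon
      have : P'.card * W'.card < P'.card * (2 * W2.card) := by
        exact Nat.mul_lt_mul_of_pos_left hcon hPpos
      nlinarith
    omega
  have hmaps : ∀ v ∈ W1, tr v ∈ P'.powerset.filter (fun S => S.card ≤ c) := by
    intro v hv
    rw [hW1, mem_filter] at hv
    rw [mem_filter, mem_powerset]
    refine ⟨filter_subset _ _, ?_⟩
    by_contra hcon
    push Not at hcon
    have e5 : D * (c + 1) ≤ D * (tr v).card := Nat.mul_le_mul_left _ hcon
    nlinarith [hv.2]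
  have hcount : (P'.powerset.filter (fun S => S.card ≤ c)).card * N ≤ W1.card := by
    have := card_small_subsets P' c k hPk
    have e6 : (P'.powerset.filter (fun S => S.card ≤ c)).card * N ≤ (k + c).choose c * N :=
      Nat.mul_le_mul_right _ this
    nlinarith
  obtain ⟨S, hS, hSN⟩ := exists_le_card_fiber_of_mul_le_card_of_maps_to hmaps
    ⟨∅, by simp⟩ hcount
  set W'' := W1.filter (fun v => tr v = S) with hW''
  obtain ⟨P2, Q2, hP2U, hQ2U, hP2i, hQ2c, hpq2⟩ := hN W'' hSN
  have hW''W : W'' ⊆ W' := (filter_subset _ _).trans (filter_subset _ _)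
  have hP2W := hP2U.trans hW''W
  have hQ2W := hQ2U.trans hW''W
  -- if `W''` is empty then the pair is empty
  have hQ2pos : 0 < P2.card := by
    rcases Nat.eq_zero_or_pos P2.card with h | h
    · rw [h] at hpq2
      simp at hpq2
      omega
    · exact h
  obtain ⟨v0, hv0⟩ := card_pos.mp hQ2pos
  have hv0S : D * S.card ≤ 2 * P'.card := by
    have := hP2U hv0
    rw [hW'', mem_filter, hW1, mem_filter] at this
    rw [← this.2]
    exact this.1.2
  set P3 := (P' \ S) ∪ P2 with hP3
  have hdis2 : Disjoint (P' \ S) P2 :=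
    disjoint_of_subset_left (sdiff_subset.trans hPU) (disjoint_of_subset_right hP2W hdis)
  have hP3c : P3.card = (P' \ S).card + P2.card := card_union_of_disjoint hdis2
  have hSd : P'.card ≤ 2 * (P' \ S).card := by
    have e7 : P'.card - S.card ≤ (P' \ S).card := le_card_sdiff S P'
    have e8 : 4 * S.card ≤ 2 * P'.card := (Nat.mul_le_mul_right _ hD).trans hv0S
    omega
  have hP3i : In G P3 := by
    have hcross : ∀ u ∈ P' \ S, ∀ v ∈ P2, ¬ G.Adj u v := by
      intro u hu v hv hadj
      have := hP2U hv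
      rw [hW'', mem_filter] at this
      rw [mem_sdiff] at hu
      apply hu.2
      rw [← this.2, htr]
      exact mem_filter.mpr ⟨hu.1, hadj⟩
    intro u hu v hv
    rw [hP3, mem_union] at hu hv
    rcases hu with hu | hu
    · rcases hv with hv | hv
      · exact hPi u (sdiff_subset hu) v (sdiff_subset hv)
      · exact hcross u hu v hv
    · rcases hv with hv | hv
      · exact fun h => hcross v hv u hu h.symm
      · exact hP2i u hu v hv
  have hP3U : P3 ⊆ U' ∪ W' :=
    union_subset_union (sdiff_subset.trans hPU) hP2W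
  rcases le_total Q'.card Q2.card with hQQ | hQQ
  · refine ⟨P3, Q2, hP3U, hQ2W.trans subset_union_right, hP3i, hQ2c, ?_⟩
    rw [hP3c]
    have e9 : P'.card * Q'.card ≤ 2 * (P' \ S).card * Q2.card := Nat.mul_le_mul hSd hQQ
    nlinarith [Nat.mul_le_mul_left y e9]
  · refine ⟨P3, Q', hP3U, hQU.trans subset_union_left, hP3i, hQc, ?_⟩
    rw [hP3c]
    have e9 : P'.card * Q'.card ≤ 2 * (P' \ S).card * Q'.card := Nat.mul_le_mul_right _ hSd
    have e10 : P2.card * Q2.card ≤ P2.card * Q'.card := Nat.mul_le_mul_left _ hQQ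
    nlinarith [Nat.mul_le_mul_left y e9, Nat.mul_le_mul_left y e10]

/-- Every two disjoint nonempty sets `A`, `B` contain subsets `A'`, `B'` of size at least
`|A| / T`, `|B| / T` such that every vertex of `A'` has few neighbours in `B'`, or every vertex of
`A'` has few non-neighbours in `B'`. -/
def PairProp (G : SimpleGraph V) (T D : ℕ) : Prop :=
  ∀ A B : Finset V, Disjoint A B → A.Nonempty → B.Nonempty →
    ∃ A' ⊆ A, ∃ B' ⊆ B, A.card ≤ T * A'.card ∧ B.card ≤ T * B'.card ∧
      ((∀ u ∈ A', D * (B'.filter (fun v => G.Adj u v)).card ≤ B'.card) ∨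
       (∀ u ∈ A', D * (B'.filter (fun v => ¬ G.Adj u v)).card ≤ B'.card))

theorem HasPair.mono {G : SimpleGraph V} {U U' : Finset V} {x y : ℕ} (h : HasPair G U x y)
    (hU : U ⊆ U') : HasPair G U' x y := by
  obtain ⟨P, Q, h1, h2, h3⟩ := h
  exact ⟨P, Q, h1.trans hU, h2.trans hU, h3⟩

theorem pair_induction (G : SimpleGraph V) (k c D T : ℕ) (hD : 4 ≤ D) (hc : 1 ≤ c) (hT : 1 ≤ T)
    (hDk : 2 * k ≤ c * D)
    (hP : ∀ P : Finset V, In G P → P.card ≤ k)
    (hQ : ∀ Q : Finset V, Cl G Q → Q.card ≤ k)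
    (hpair : PairProp G T D) (j : ℕ) :
    ∀ U : Finset V, (k + 1 + c).choose c * (6 * T * (k + c).choose c) ^ j ≤ U.card →
      HasPair G U (3 ^ j * c ^ 2) (2 ^ j) := by
  induction j with
  | zero =>
    intro U hU
    rw [pow_zero, mul_one] at hU
    have h1 : ∃ Q ⊆ U, Q.card = c ∧ Cl G Q := by
      rcases es G _ c (k + 1) rfl U (by rwa [add_comm c (k + 1)]) with h | ⟨P, h1, h2, h3⟩
      · exact h
      · have := hP P h3
        omega
    have h2 : ∃ P ⊆ U, P.card = c ∧ In G P := by
      rcases es Gᶜ _ c (k + 1) rfl U (by rwa [add_comm c (k + 1)]) with ⟨P, h1, h2, h3⟩ |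
        ⟨Q, h1, h2, h3⟩
      · refine ⟨P, h1, h2, ?_⟩
        have := cl_compl h3
        rwa [compl_compl] at this
      · have h4 := in_compl h3
        rw [compl_compl] at h4
        have := hQ Q h4
        omega
    obtain ⟨Q, h3, h4, h5⟩ := h1
    obtain ⟨P, h6, h7, h8⟩ := h2
    refine ⟨P, Q, h6, h3, h8, h5, ?_⟩
    rw [h4, h7]
    simp [pow_two]
  | succ j ih =>
    intro U hU
    set Θ := (k + c).choose c with hΘ
    have hΘ1 : 1 ≤ Θ := Nat.choose_pos (by omega)
    set M := (k + 1 + c).choose c * (6 * T * Θ) ^ j with hM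
    have hM1 : 1 ≤ M := by
      have h1 : 1 ≤ (k + 1 + c).choose c := Nat.choose_pos (by omega)
      have h2 : 1 ≤ (6 * T * Θ) ^ j := Nat.one_le_pow _ _ (by positivity)
      exact Nat.mul_pos h1 h2
    have hU' : 6 * T * Θ * M ≤ U.card := by
      calc 6 * T * Θ * M = (k + 1 + c).choose c * (6 * T * Θ) ^ (j + 1) := by rw [hM]; ring
        _ ≤ U.card := hU
    have hTΘ : 1 ≤ T * Θ * M := Nat.mul_pos (Nat.mul_pos hT hΘ1) hM1
    have hU6 : 6 ≤ U.card := by nlinarith
    obtain ⟨A, hAU, hAc⟩ := exists_subset_card_eq (show U.card / 2 ≤ U.card by omega)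
    have hBc : (U \ A).card = U.card - U.card / 2 := by
      rw [card_sdiff_of_subset hAU, hAc]
    have hdis : Disjoint A (U \ A) := disjoint_sdiff
    obtain ⟨A', hA', B', hB', hAT, hBT, hcol⟩ := hpair A (U \ A) hdis
      (card_pos.mp (by omega)) (card_pos.mp (by omega))
    have hdis' : Disjoint A' B' := disjoint_of_subset_left hA' (disjoint_of_subset_right hB' hdis)
    have hA3 : U.card ≤ 3 * A.card := by omega
    have hB3 : U.card ≤ 3 * (U \ A).card := by omega
    have hAM : 2 * Θ * M ≤ A'.card := by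
      have h1 : 6 * T * Θ * M ≤ 3 * (T * A'.card) := by
        calc 6 * T * Θ * M ≤ U.card := hU'
          _ ≤ 3 * A.card := hA3
          _ ≤ 3 * (T * A'.card) := Nat.mul_le_mul_left _ hAT
      have h2 : (3 * T) * (2 * Θ * M) ≤ (3 * T) * A'.card := by nlinarith
      exact Nat.le_of_mul_le_mul_left h2 (by omega)
    have hBM : 2 * Θ * M ≤ B'.card := by
      have h1 : 6 * T * Θ * M ≤ 3 * (T * B'.card) := by
        calc 6 * T * Θ * M ≤ U.card := hU'
          _ ≤ 3 * (U \ A).card := hB3
          _ ≤ 3 * (T * B'.card) := Nat.mul_le_mul_left _ hBT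
      have h2 : (3 * T) * (2 * Θ * M) ≤ (3 * T) * B'.card := by nlinarith
      exact Nat.le_of_mul_le_mul_left h2 (by omega)
    have hAM1 : M ≤ A'.card := by nlinarith
    have hx : 0 < 3 ^ j * c ^ 2 := by positivity
    have hUU : A' ∪ B' ⊆ U := union_subset (hA'.trans hAU) (hB'.trans sdiff_subset)
    have e1 : 3 ^ (j + 1) * c ^ 2 = 3 * (3 ^ j * c ^ 2) := by ring
    have e2 : 2 ^ (j + 1) = 2 * 2 ^ j := by ring
    rw [e1, e2]
    refine HasPair.mono ?_ hUU
    rcases hcol with hcol | hcol
    · exact sparse_step G k c D M _ _ hD hx hDk hP ih A' B' hdis' hAM1 hBM hcol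
    · have h := sparse_step Gᶜ k c D M _ _ hD hx hDk (fun P hP' => hQ P (by
        have := in_compl hP'
        rwa [compl_compl] at this)) (fun U hU => (ih U hU).compl) A' B' hdis' hAM1 hBM (by
        intro u hu
        refine le_trans (Nat.mul_le_mul_left _ (card_le_card ?_)) (hcol u hu)
        intro v hv
        have hv2 := (@mem_filter V (fun v => Gᶜ.Adj u v) (fun v => propDecidable _) B' v).mp hv
        exact mem_filter.mpr ⟨hv2.1, ((SimpleGraph.compl_adj G u v).mp hv2.2).2⟩)
      have h' := h.compl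
      rwa [compl_compl] at h'

/-- The bound for the number of vertices. -/
theorem card_lt [Fintype V] (G : SimpleGraph V) (k c D T j : ℕ) (hD : 4 ≤ D) (hc : 1 ≤ c)
    (hT : 1 ≤ T) (hDk : 2 * k ≤ c * D) (hG : G.CliqueFree (k + 1)) (hG' : Gᶜ.CliqueFree (k + 1))
    (hpair : PairProp G T D) (hj : 2 ^ j * k ^ 2 < 3 ^ j * c ^ 2) :
    Fintype.card V < (k + 1 + c).choose c * (6 * T * (k + c).choose c) ^ j := by
  have hQ : ∀ (H : SimpleGraph V), H.CliqueFree (k + 1) → ∀ Q : Finset V, Cl H Q → Q.card ≤ k := by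
    intro H hH Q hQ
    by_contra hcon
    push Not at hcon
    have h1 : H.IsNClique Q.card Q := by
      rw [SimpleGraph.isNClique_iff]
      refine ⟨?_, rfl⟩
      intro u hu v hv huv
      exact hQ u hu v hv huv
    exact (hH.mono hcon) Q h1
  by_contra hcon
  push Not at hcon
  have := pair_induction G k c D T hD hc hT hDk (fun P hP => hQ Gᶜ hG' P (in_compl hP))
    (hQ G hG) hpair j univ (by rwa [card_univ])
  obtain ⟨P, Q, _, _, h3, h4, h5⟩ := this
  have h6 := hQ Gᶜ hG' P (in_compl h3)
  have h7 := hQ G hG Q h4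
  have h8 : P.card * Q.card ≤ k ^ 2 := by
    rw [pow_two]
    exact Nat.mul_le_mul h6 h7
  have h9 := Nat.mul_le_mul_left (2 ^ j) h8
  omega

end Pool.Agent.N920.CC
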