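import Pool.Agent.N920.CC.Sample

/-!
# Communication protocols
-/

set_option autoImplicit false

namespace Pool.Agent.N920.CC

open Finset

open Classical

/-- Deterministic communication protocols: Alice holds the first vertex, Bob the second one; at
every step one of them sends a bit that depends on the own vertex. -/
inductive Protocol (V : Type) : Type
  | leaf (b : Bool) : Protocol V
  | alice (f : V → Bool) (p q : Protocol V) : Protocol V
  | bob (f : V → Bool) (p q : Protocol V) : Protocol V

variable {V : Type}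

/-- The number of bits that are sent in the worst case. -/
def Protocol.cost : Protocol V → ℕ
  | .leaf _ => 0
  | .alice _ p q => max p.cost q.cost + 1
  | .bob _ p q => max p.cost q.cost + 1

/-- The output on the input `(u, v)`. -/
def Protocol.output : Protocol V → V → V → Bool
  | .leaf b, _, _ => b
  | .alice f p q, u, v => if f u then p.output u v else q.output u v
  | .bob f p q, u, v => if f v then p.output u v else q.output u v

/-- The bounded-error randomized (public-coin) communication complexity of the colouring `G` is at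
most `c`: there are `r` deterministic protocols of cost at most `c` of which, for every pair
`u ≠ v`, at most `r / 3` have an output different from the colour of the pair. -/
def RandCost (G : SimpleGraph V) (c : ℕ) : Prop :=
  ∃ (r : ℕ) (P : Fin r → Protocol V), 0 < r ∧ (∀ i, (P i).cost ≤ c) ∧
    ∀ u v, u ≠ v → 3 * (univ.filter fun i => ¬ ((P i).output u v = true ↔ G.Adj u v)).card ≤ r

theorem hit_sum {ι ι' : Type} [Fintype ι] [Fintype ι'] (w : ι → ℝ) (X Y : ι → V → Prop)
    (b : ι → Prop) (w' : ι' → ℝ) (X' Y' : ι' → V → Prop) (b' : ι' → Prop) (u v : V) (a : Prop) :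
    hit (Sum.elim w w') (Sum.elim X X') (Sum.elim Y Y') (Sum.elim b b') u v a =
      hit w X Y b u v a + hit w' X' Y' b' u v a := by
  unfold hit
  rw [Fintype.sum_sum_type]
  rfl

theorem leaves (P : Protocol V) : ∃ (κ : Type) (_ : Fintype κ) (X Y : κ → V → Prop) (b : κ → Prop),
    Fintype.card κ ≤ 2 ^ P.cost ∧ ∀ u v (a : Prop),
      hit (fun _ => 1) X Y b u v a = if (P.output u v = true ↔ a) then 1 else 0 := by
  induction P with
  | leaf β =>
    refine ⟨Unit, inferInstance, fun _ _ => True, fun _ _ => True, fun _ => β = true, ?_, ?_⟩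
    · simp [Protocol.cost]
    · intro u v a
      by_cases ha : a <;> cases β <;> simp [Protocol.output, hit, ha]
  | alice f p q ihp ihq =>
    obtain ⟨κ, _, X, Y, b, h1, h2⟩ := ihp
    obtain ⟨κ', _, X', Y', b', h1', h2'⟩ := ihq
    refine ⟨κ ⊕ κ', inferInstance, Sum.elim (fun i u => f u = true ∧ X i u)
      (fun i u => f u = false ∧ X' i u), Sum.elim Y Y', Sum.elim b b', ?_, ?_⟩
    · rw [Fintype.card_sum, Protocol.cost, pow_succ, mul_two]
      exact Nat.add_le_add
        (h1.trans (Nat.pow_le_pow_right (by norm_num) (le_max_left _ _)))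
        (h1'.trans (Nat.pow_le_pow_right (by norm_num) (le_max_right _ _)))
    · intro u v a
      have e0 : (fun _ : κ ⊕ κ' => (1 : ℝ)) = Sum.elim (fun _ => 1) (fun _ => 1) := by
        funext i
        cases i <;> rfl
      rw [e0, hit_sum]
      have e1 : hit (fun _ => (1 : ℝ)) (fun i u => f u = true ∧ X i u) Y b u v a =
          if f u = true then hit (fun _ => (1 : ℝ)) X Y b u v a else 0 := by
        by_cases hf : f u = true <;> simp [hit, hf]
      have e2 : hit (fun _ => (1 : ℝ)) (fun i u => f u = false ∧ X' i u) Y' b' u v a =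
          if f u = true then 0 else hit (fun _ => (1 : ℝ)) X' Y' b' u v a := by
        by_cases hf : f u = true <;> simp [hit, hf]
      rw [e1, e2, h2, h2']
      by_cases hf : f u = true <;> simp [hf, Protocol.output]
  | bob f p q ihp ihq =>
    obtain ⟨κ, _, X, Y, b, h1, h2⟩ := ihp
    obtain ⟨κ', _, X', Y', b', h1', h2'⟩ := ihq
    refine ⟨κ ⊕ κ', inferInstance, Sum.elim X X', Sum.elim (fun i v => f v = true ∧ Y i v)
      (fun i v => f v = false ∧ Y' i v), Sum.elim b b', ?_, ?_⟩
    · rw [Fintype.card_sum, Protocol.cost, pow_succ, mul_two]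
      exact Nat.add_le_add
        (h1.trans (Nat.pow_le_pow_right (by norm_num) (le_max_left _ _)))
        (h1'.trans (Nat.pow_le_pow_right (by norm_num) (le_max_right _ _)))
    · intro u v a
      have e0 : (fun _ : κ ⊕ κ' => (1 : ℝ)) = Sum.elim (fun _ => 1) (fun _ => 1) := by
        funext i
        cases i <;> rfl
      rw [e0, hit_sum]
      have e1 : hit (fun _ => (1 : ℝ)) X (fun i v => f v = true ∧ Y i v) b u v a =
          if f v = true then hit (fun _ => (1 : ℝ)) X Y b u v a else 0 := by
        by_cases hf : f v = true <;> simp [hit, hf]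
      have e2 : hit (fun _ => (1 : ℝ)) X' (fun i v => f v = false ∧ Y' i v) b' u v a =
          if f v = true then 0 else hit (fun _ => (1 : ℝ)) X' Y' b' u v a := by
        by_cases hf : f v = true <;> simp [hit, hf]
      rw [e1, e2, h2, h2']
      by_cases hf : f v = true <;> simp [hf, Protocol.output]

/-- A randomized protocol gives a distribution on labelled rectangles. -/
theorem RandCost.rectCost {G : SimpleGraph V} {c : ℕ} (h : RandCost G c) : RectCost G (c + 1) := by
  obtain ⟨r, P, hr, hc, herr⟩ := h
  choose κ hκ X Y b h1 h2 using fun i => leaves (P i)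
  have hr' : (0 : ℝ) < r := by exact_mod_cast hr
  set ω : ℝ := 1 / (r * 2 ^ c) with hω
  have hω0 : 0 < ω := by positivity
  refine ⟨Σ i, κ i, inferInstance, fun _ => ω, fun p => X p.1 p.2, fun p => Y p.1 p.2,
    fun p => b p.1 p.2, fun _ => hω0.le, ?_, ?_⟩
  · rw [sum_const, card_univ, Fintype.card_sigma, nsmul_eq_mul]
    have e1 : ∑ i, Fintype.card (κ i) ≤ r * 2 ^ c := by
      calc ∑ i, Fintype.card (κ i) ≤ ∑ _i : Fin r, 2 ^ c :=
            sum_le_sum fun i _ => (h1 i).trans (Nat.pow_le_pow_right (by norm_num) (hc i))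
        _ = r * 2 ^ c := by simp
    have e2 : ((∑ i, Fintype.card (κ i) : ℕ) : ℝ) ≤ r * 2 ^ c := by exact_mod_cast e1
    rw [hω, mul_one_div, div_le_one (by positivity)]
    exact e2
  · intro u v huv
    obtain ⟨N, hN⟩ : ∃ N : Prop → ℕ, ∀ a, N a =
        (univ.filter fun i => ((P i).output u v = true ↔ a)).card := ⟨_, fun _ => rfl⟩
    have key : ∀ a : Prop, hit (fun _ : (Σ i, κ i) => ω) (fun p => X p.1 p.2) (fun p => Y p.1 p.2)
        (fun p => b p.1 p.2) u v a = ω * (N a : ℝ) := by
      intro a
      rw [hN, card_filter]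
      unfold hit
      rw [Fintype.sum_sigma]
      push_cast
      rw [mul_sum]
      refine sum_congr rfl fun i _ => ?_
      rw [← h2 i u v a]
      unfold hit
      rw [mul_sum]
      refine sum_congr rfl fun j _ => ?_
      split_ifs <;> simp
    rw [key, key]
    have e3 := herr u v huv
    have e4 : N (¬ G.Adj u v) =
        (univ.filter fun i => ¬ ((P i).output u v = true ↔ G.Adj u v)).card := by
      rw [hN, card_filter, card_filter]
      refine sum_congr rfl fun i _ => ?_
      by_cases h3 : (P i).output u v = true <;> by_cases h4 : G.Adj u v <;> simp [h3, h4]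
    have e5 : N (G.Adj u v) +
        (univ.filter fun i => ¬ ((P i).output u v = true ↔ G.Adj u v)).card = r := by
      rw [hN, card_filter_add_card_filter_not, card_univ, Fintype.card_fin]
    rw [← e4] at e3 e5
    set x := N (G.Adj u v)
    set y := N (¬ G.Adj u v)
    have e6 : (x : ℝ) + y = r := by exact_mod_cast e5
    have e7 : 3 * (y : ℝ) ≤ r := by exact_mod_cast e3
    constructor
    · have e8 : (r : ℝ) / 2 ≤ x := by linarith
      calc (1 / 2 : ℝ) ^ (c + 1) = ω * (r / 2) := by
            rw [hω, one_div_pow, pow_succ]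
            field_simp
        _ ≤ ω * x := mul_le_mul_of_nonneg_left e8 hω0.le
    · have e9 : (y : ℝ) ≤ 1 / 2 * x := by linarith
      calc ω * y ≤ ω * (1 / 2 * x) := mul_le_mul_of_nonneg_left e9 hω0.le
        _ = 1 / 2 * (ω * x) := by ring

/-- The trivial protocol. -/
theorem trivial_protocol (G : SimpleGraph V) : ∀ (m : ℕ) (A : Finset V), A.card ≤ 2 ^ m →
    ∃ P : Protocol V, P.cost ≤ m + 1 ∧ ∀ u ∈ A, ∀ v, (P.output u v = true ↔ G.Adj u v) := by
  intro m
  induction m with
  | zero =>
    intro A hA
    rw [pow_zero] at hA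
    rcases A.eq_empty_or_nonempty with rfl | ⟨x, hx⟩
    · exact ⟨.leaf true, by simp [Protocol.cost], by simp⟩
    · refine ⟨.bob (fun v => decide (G.Adj x v)) (.leaf true) (.leaf false), by
        simp [Protocol.cost], ?_⟩
      intro u hu v
      rw [card_le_one.mp hA u hu x hx]
      by_cases h : G.Adj x v <;> simp [Protocol.output, h]
  | succ m ih =>
    intro A hA
    obtain ⟨A1, hA1, hA1c⟩ := exists_subset_card_eq (show A.card / 2 ≤ A.card by omega)
    have h1 : A1.card ≤ 2 ^ m := by rw [pow_succ] at hA; omega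
    have h2 : (A \ A1).card ≤ 2 ^ m := by
      rw [card_sdiff_of_subset hA1]
      rw [pow_succ] at hA
      omega
    obtain ⟨P, hP1, hP2⟩ := ih A1 h1
    obtain ⟨Q, hQ1, hQ2⟩ := ih (A \ A1) h2
    refine ⟨.alice (fun u => decide (u ∈ A1)) P Q, ?_, ?_⟩
    · rw [Protocol.cost]
      omega
    · intro u hu v
      by_cases h : u ∈ A1
      · simp only [Protocol.output, h, decide_true, if_true]
        exact hP2 u h v
      · simp only [Protocol.output, h, decide_false]
        exact hQ2 u (mem_sdiff.mpr ⟨hu, h⟩) v

theorem randCost_of_card [Fintype V] (G : SimpleGraph V) (m : ℕ) (h : Fintype.card V ≤ 2 ^ m) :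
    RandCost G (m + 1) := by
  obtain ⟨P, h1, h2⟩ := trivial_protocol G m univ (by rwa [card_univ])
  refine ⟨1, fun _ => P, one_pos, fun _ => h1, ?_⟩
  intro u v _
  have : (univ.filter fun _ : Fin 1 => ¬ (P.output u v = true ↔ G.Adj u v)) = ∅ :=
    filter_eq_empty_iff.mpr fun i _ => by simp [h2 u (mem_univ _) v]
  rw [this]
  simp

theorem RandCost.mono {G : SimpleGraph V} {c d : ℕ} (h : RandCost G c) (hcd : c ≤ d) :
    RandCost G d := by
  obtain ⟨r, P, h1, h2, h3⟩ := h
  exact ⟨r, P, h1, fun i => (h2 i).trans hcd, h3⟩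

end Pool.Agent.N920.CC
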