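import Pool.Agent.N920.CC.Pairs

/-!
# Random labelled rectangles
-/

set_option autoImplicit false

namespace Pool.Agent.N920.CC

open Finset

open Classical

variable {V : Type}

/-- The total weight of the labelled rectangles `(X i, Y i, b i)` which contain `(u, v)` and have
label `a`. -/
noncomputable def hit {ι : Type} [Fintype ι] (w : ι → ℝ) (X Y : ι → V → Prop) (b : ι → Prop)
    (u v : V) (a : Prop) : ℝ :=
  ∑ i, if X i u ∧ Y i v ∧ (b i ↔ a) then w i else 0

/-- There are labelled rectangles, with weights of sum at most `1`, such that for every pair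
`u ≠ v` the rectangles containing `(u, v)` and labelled by the colour of `uv` have weight at least
`q`, and those labelled by the other colour have at most `lam` times this weight. -/
def Sampled (G : SimpleGraph V) (q lam : ℝ) : Prop :=
  ∃ (ι : Type) (_ : Fintype ι) (w : ι → ℝ) (X Y : ι → V → Prop) (b : ι → Prop),
    (∀ i, 0 ≤ w i) ∧ ∑ i, w i ≤ 1 ∧
    ∀ u v, u ≠ v → q ≤ hit w X Y b u v (G.Adj u v) ∧
      hit w X Y b u v (¬ G.Adj u v) ≤ lam * hit w X Y b u v (G.Adj u v)

theorem hit_nonneg {ι : Type} [Fintype ι] {w : ι → ℝ} {X Y : ι → V → Prop} {b : ι → Prop}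
    (hw : ∀ i, 0 ≤ w i) (u v : V) (a : Prop) : 0 ≤ hit w X Y b u v a := by
  unfold hit
  refine sum_nonneg ?_
  intro i _
  split_ifs
  · exact hw i
  · exact le_rfl

theorem hit_le {ι : Type} [Fintype ι] {w : ι → ℝ} {X Y : ι → V → Prop} {b : ι → Prop}
    (hw : ∀ i, 0 ≤ w i) (u v : V) (a : Prop) : hit w X Y b u v a ≤ ∑ i, w i := by
  unfold hit
  refine sum_le_sum ?_
  intro i _
  split_ifs
  · exact le_rfl
  · exact hw i

theorem hit_prod {ι ι' : Type} [Fintype ι] [Fintype ι'] (w : ι → ℝ) (X Y : ι → V → Prop)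
    (b : ι → Prop) (w' : ι' → ℝ) (X' Y' : ι' → V → Prop) (b' : ι' → Prop) (u v : V) (a : Prop) :
    hit (fun p : ι × ι' => if (b p.1 ↔ b' p.2) then w p.1 * w' p.2 else 0)
      (fun p u => X p.1 u ∧ X' p.2 u) (fun p v => Y p.1 v ∧ Y' p.2 v) (fun p => b p.1) u v a =
    hit w X Y b u v a * hit w' X' Y' b' u v a := by
  unfold hit
  rw [Fintype.sum_prod_type, sum_mul_sum]
  refine sum_congr rfl fun i _ => sum_congr rfl fun j _ => ?_
  by_cases h1 : X i u <;> by_cases h2 : Y i v <;> by_cases h3 : X' j u <;> by_cases h4 : Y' j v <;>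
    by_cases h5 : b i <;> by_cases h6 : b' j <;> by_cases h7 : a <;>
    simp [h1, h2, h3, h4, h5, h6, h7]

theorem Sampled.mul {G : SimpleGraph V} {q lam q' lam' : ℝ} (hq : 0 ≤ q) (hq' : 0 ≤ q')
    (h : Sampled G q lam) (h' : Sampled G q' lam') : Sampled G (q * q') (lam * lam') := by
  obtain ⟨ι, _, w, X, Y, b, hw, hs, h1⟩ := h
  obtain ⟨ι', _, w', X', Y', b', hw', hs', h1'⟩ := h'
  refine ⟨ι × ι', inferInstance, fun p => if (b p.1 ↔ b' p.2) then w p.1 * w' p.2 else 0,
    fun p u => X p.1 u ∧ X' p.2 u, fun p v => Y p.1 v ∧ Y' p.2 v, fun p => b p.1, ?_, ?_, ?_⟩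
  · intro p
    dsimp only
    split_ifs
    · exact mul_nonneg (hw _) (hw' _)
    · exact le_rfl
  · calc ∑ p : ι × ι', (if (b p.1 ↔ b' p.2) then w p.1 * w' p.2 else 0)
        ≤ ∑ p : ι × ι', w p.1 * w' p.2 := by
          refine sum_le_sum ?_
          intro p _
          split_ifs
          · exact le_rfl
          · exact mul_nonneg (hw _) (hw' _)
      _ = (∑ i, w i) * ∑ j, w' j := by rw [Fintype.sum_prod_type, sum_mul_sum]
      _ ≤ 1 * 1 := mul_le_mul hs hs' (sum_nonneg fun i _ => hw' i) zero_le_one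
      _ = 1 := one_mul _
  · intro u v huv
    rw [hit_prod, hit_prod]
    obtain ⟨h2, h3⟩ := h1 u v huv
    obtain ⟨h2', h3'⟩ := h1' u v huv
    constructor
    · exact mul_le_mul h2 h2' hq' (hq.trans h2)
    · calc hit w X Y b u v (¬ G.Adj u v) * hit w' X' Y' b' u v (¬ G.Adj u v)
          ≤ (lam * hit w X Y b u v (G.Adj u v)) * (lam' * hit w' X' Y' b' u v (G.Adj u v)) :=
            mul_le_mul h3 h3' (hit_nonneg hw' _ _ _) ((hit_nonneg hw _ _ _).trans h3)
        _ = lam * lam' * (hit w X Y b u v (G.Adj u v) * hit w' X' Y' b' u v (G.Adj u v)) := by ring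

theorem Sampled.pow {G : SimpleGraph V} {q lam : ℝ} (hq : 0 ≤ q) (h : Sampled G q lam) (t : ℕ) :
    Sampled G (q ^ (t + 1)) (lam ^ (t + 1)) := by
  induction t with
  | zero => simpa using h
  | succ t ih =>
    have := Sampled.mul (pow_nonneg hq _) hq ih h
    rwa [← pow_succ, ← pow_succ] at this

theorem Sampled.mono {G : SimpleGraph V} {q lam q' lam' : ℝ} (h : Sampled G q lam) (hq : q' ≤ q)
    (hl : lam ≤ lam') : Sampled G q' lam' := by
  obtain ⟨ι, i1, w, X, Y, b, hw, hs, h1⟩ := h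
  refine ⟨ι, i1, w, X, Y, b, hw, hs, fun u v huv => ?_⟩
  obtain ⟨h2, h3⟩ := h1 u v huv
  exact ⟨hq.trans h2, h3.trans (mul_le_mul_of_nonneg_right hl (hit_nonneg hw _ _ _))⟩

/-- Averaging: a rectangle that is large and nearly monochromatic between `A` and `B`. -/
theorem exists_rect {G : SimpleGraph V} {q lam : ℝ} (hq : 0 < q) (hlam : 0 < lam)
    (h : Sampled G q lam) (A B : Finset V) (hdis : Disjoint A B) (hA : A.Nonempty)
    (hB : B.Nonempty) :
    ∃ A' ⊆ A, ∃ B' ⊆ B, ∃ b : Prop,
      ((∑ u ∈ A', (B'.filter (fun v => ¬ (b ↔ G.Adj u v))).card : ℕ) : ℝ) ≤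
        2 * lam * (A'.card * B'.card) ∧
      q * (A.card * B.card) ≤ 2 * (A'.card * B'.card) := by
  obtain ⟨ι, _, w, X, Y, b, hw, hs, h1⟩ := h
  have hne : ∀ u ∈ A, ∀ v ∈ B, u ≠ v := fun u hu v hv huv =>
    (disjoint_left.mp hdis hu) (huv ▸ hv)
  -- right, wrong and total number of pairs
  set R : ι → ℝ := fun i => ∑ u ∈ A, ∑ v ∈ B, if X i u ∧ Y i v ∧ (b i ↔ G.Adj u v) then (1 : ℝ) else 0
    with hR
  set E : ι → ℝ := fun i => ∑ u ∈ A, ∑ v ∈ B, if X i u ∧ Y i v ∧ (b i ↔ ¬ G.Adj u v) then (1 : ℝ) else 0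
    with hE
  have hRsum : ∑ i, w i * R i = ∑ u ∈ A, ∑ v ∈ B, hit w X Y b u v (G.Adj u v) := by
    simp only [hR, hit, mul_sum]
    rw [sum_comm]
    refine sum_congr rfl fun u _ => ?_
    rw [sum_comm]
    refine sum_congr rfl fun v _ => sum_congr rfl fun i _ => ?_
    split_ifs <;> simp
  have hEsum : ∑ i, w i * E i = ∑ u ∈ A, ∑ v ∈ B, hit w X Y b u v (¬ G.Adj u v) := by
    simp only [hE, hit, mul_sum]
    rw [sum_comm]
    refine sum_congr rfl fun u _ => ?_
    rw [sum_comm]
    refine sum_congr rfl fun v _ => sum_congr rfl fun i _ => ?_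
    split_ifs <;> simp
  have hAB : (0 : ℝ) < A.card * B.card := by
    have h2 := card_pos.mpr hA
    have h3 := card_pos.mpr hB
    positivity
  have hR1 : q * (A.card * B.card) ≤ ∑ i, w i * R i := by
    rw [hRsum]
    calc q * (A.card * B.card) = ∑ _u ∈ A, ∑ _v ∈ B, q := by
          simp only [sum_const, nsmul_eq_mul]
          ring
      _ ≤ _ := sum_le_sum fun u hu => sum_le_sum fun v hv => (h1 u v (hne u hu v hv)).1
  have hE1 : ∑ i, w i * E i ≤ lam * ∑ i, w i * R i := by
    rw [hEsum, hRsum, mul_sum]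
    refine sum_le_sum fun u hu => ?_
    rw [mul_sum]
    exact sum_le_sum fun v hv => (h1 u v (hne u hu v hv)).2
  have hmain : ∃ i, E i + lam * (q * (A.card * B.card)) ≤ 2 * lam * (R i + E i) := by
    by_contra hcon
    push Not at hcon
    have hE0 : ∀ i, 0 ≤ E i := fun i => sum_nonneg fun u _ => sum_nonneg fun v _ => by
      split_ifs <;> norm_num
    have hpos : 0 < ∑ i, w i * R i := lt_of_lt_of_le (mul_pos hq hAB) hR1
    have hex : ∃ i, 0 < w i := by
      by_contra hno
      push Not at hno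
      have : ∑ i, w i * R i = 0 := by
        refine sum_eq_zero fun i _ => ?_
        rw [le_antisymm (hno i) (hw i), zero_mul]
      linarith
    obtain ⟨i0, hi0⟩ := hex
    have hlt : ∑ i, w i * (2 * lam * (R i + E i)) <
        ∑ i, w i * (E i + lam * (q * (A.card * B.card))) := by
      refine sum_lt_sum (fun i _ => mul_le_mul_of_nonneg_left (hcon i).le (hw i)) ?_
      exact ⟨i0, mem_univ _, mul_lt_mul_of_pos_left (hcon i0) hi0⟩
    have e1 : ∑ i, w i * (2 * lam * (R i + E i)) =
        2 * lam * (∑ i, w i * R i) + 2 * lam * (∑ i, w i * E i) := by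
      rw [mul_sum, mul_sum, ← sum_add_distrib]
      exact sum_congr rfl fun i _ => by ring
    have e2 : ∑ i, w i * (E i + lam * (q * (A.card * B.card))) =
        (∑ i, w i * E i) + (∑ i, w i) * (lam * (q * (A.card * B.card))) := by
      rw [sum_mul, ← sum_add_distrib]
      exact sum_congr rfl fun i _ => by ring
    have e3 : 0 ≤ ∑ i, w i * E i := sum_nonneg fun i _ => mul_nonneg (hw i) (hE0 i)
    have e4 : (∑ i, w i) * (lam * (q * (A.card * B.card))) ≤ 1 * (lam * (q * (A.card * B.card))) :=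
      mul_le_mul_of_nonneg_right hs (by positivity)
    have e5 : lam * (q * (A.card * B.card)) ≤ lam * ∑ i, w i * R i :=
      mul_le_mul_of_nonneg_left hR1 hlam.le
    have e6 : 0 ≤ 2 * lam * (∑ i, w i * E i) := by positivity
    rw [e1, e2] at hlt
    linarith
  obtain ⟨i, hi⟩ := hmain
  have hcardR : R i + E i = (A.filter (X i)).card * (B.filter (Y i)).card := by
    have : R i + E i = ∑ u ∈ A, ∑ v ∈ B, (if X i u then (1 : ℝ) else 0) * (if Y i v then 1 else 0) := by
      simp only [hR, hE]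
      rw [← sum_add_distrib]
      refine sum_congr rfl fun u _ => ?_
      rw [← sum_add_distrib]
      refine sum_congr rfl fun v _ => ?_
      by_cases h2 : X i u <;> by_cases h3 : Y i v <;> by_cases h4 : b i <;>
        by_cases h5 : G.Adj u v <;> simp [h2, h3, h4, h5]
    rw [this]
    simp only [← mul_sum, ← sum_mul]
    simp
  have hcardE : ((∑ u ∈ A.filter (X i), ((B.filter (Y i)).filter
      (fun v => ¬ (b i ↔ G.Adj u v))).card : ℕ) : ℝ) = E i := by
    simp only [hE]
    push_cast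
    rw [sum_filter]
    refine sum_congr rfl fun u _ => ?_
    rw [card_filter, sum_filter]
    push_cast
    by_cases h2 : X i u
    · simp only [h2, if_true, true_and]
      refine sum_congr rfl fun v _ => ?_
      by_cases h3 : Y i v <;> by_cases h4 : b i <;> by_cases h5 : G.Adj u v <;> simp [h3, h4, h5]
    · simp [h2]
  refine ⟨A.filter (X i), filter_subset _ _, B.filter (Y i), filter_subset _ _, b i, ?_, ?_⟩
  · rw [hcardE, ← hcardR]
    have : 0 ≤ lam * (q * (A.card * B.card)) := by positivity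
    linarith
  · rw [← hcardR]
    have hE0 : 0 ≤ E i := sum_nonneg fun u _ => sum_nonneg fun v _ => by
      split_ifs <;> norm_num
    have : lam * (q * (A.card * B.card)) ≤ lam * (2 * (R i + E i)) := by linarith
    exact le_of_mul_le_mul_left this hlam

theorem pairProp_of_sampled {G : SimpleGraph V} {s t : ℕ} (h : Sampled G ((1 / 2) ^ s) ((1 / 2) ^ (t + 2))) :
    PairProp G (2 ^ (s + 2)) (2 ^ t) := by
  intro A B hdis hA hB
  obtain ⟨A', hA', B', hB', b, h1, h2⟩ := exists_rect (by positivity) (by positivity) h A B hdis hA hB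
  have hAp : (0 : ℝ) < A.card := by exact_mod_cast card_pos.mpr hA
  have hBp : (0 : ℝ) < B.card := by exact_mod_cast card_pos.mpr hB
  have hs : (0 : ℝ) < (1 / 2) ^ s := by positivity
  have hs2 : (1 / 2 : ℝ) ^ s * 2 ^ s = 1 := by
    rw [← mul_pow]
    norm_num
  have ht2 : (1 / 2 : ℝ) ^ t * 2 ^ t = 1 := by
    rw [← mul_pow]
    norm_num
  have hA'le : (A'.card : ℝ) ≤ A.card := by exact_mod_cast card_le_card hA'
  have hB'le : (B'.card : ℝ) ≤ B.card := by exact_mod_cast card_le_card hB'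
  have hpos : (0 : ℝ) < A'.card * B'.card := by
    have : 0 < (1 / 2 : ℝ) ^ s * (A.card * B.card) := by positivity
    linarith
  have hA'p : (0 : ℝ) < A'.card := by
    rcases (Nat.cast_nonneg (α := ℝ) A'.card).lt_or_eq with h3 | h3
    · exact h3
    · rw [← h3] at hpos
      simp at hpos
  have hB'p : (0 : ℝ) < B'.card := by
    rcases (Nat.cast_nonneg (α := ℝ) B'.card).lt_or_eq with h3 | h3
    · exact h3
    · rw [← h3] at hpos
      simp at hpos
  -- sizes
  have hAsz : (1 / 2 : ℝ) ^ s * A.card ≤ 2 * A'.card := by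
    have : ((1 / 2 : ℝ) ^ s * A.card) * B.card ≤ (2 * A'.card) * B.card := by
      calc ((1 / 2 : ℝ) ^ s * A.card) * B.card = (1 / 2 : ℝ) ^ s * (A.card * B.card) := by ring
        _ ≤ 2 * (A'.card * B'.card) := h2
        _ ≤ 2 * (A'.card * B.card) := by gcongr
        _ = (2 * A'.card) * B.card := by ring
    exact le_of_mul_le_mul_right this hBp
  have hBsz : (1 / 2 : ℝ) ^ s * B.card ≤ 2 * B'.card := by
    have : ((1 / 2 : ℝ) ^ s * B.card) * A.card ≤ (2 * B'.card) * A.card := by
      calc ((1 / 2 : ℝ) ^ s * B.card) * A.card = (1 / 2 : ℝ) ^ s * (A.card * B.card) := by ring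
        _ ≤ 2 * (A'.card * B'.card) := h2
        _ ≤ 2 * (A.card * B'.card) := by gcongr
        _ = (2 * B'.card) * A.card := by ring
    exact le_of_mul_le_mul_right this hAp
  -- bad rows
  set f : V → ℕ := fun u => (B'.filter (fun v => ¬ (b ↔ G.Adj u v))).card with hf
  set A1 := A'.filter (fun u => 2 ^ t * f u ≤ B'.card) with hA1
  set A2 := A'.filter (fun u => ¬ 2 ^ t * f u ≤ B'.card) with hA2
  have h12 : A1.card + A2.card = A'.card := by rw [hA1, hA2, card_filter_add_card_filter_not]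
  have hbad : 2 * A2.card ≤ A'.card := by
    have e1 : (A2.card * B'.card : ℕ) ≤ 2 ^ t * ∑ u ∈ A', f u := by
      calc A2.card * B'.card = ∑ _u ∈ A2, B'.card := by rw [sum_const, smul_eq_mul]
        _ ≤ ∑ u ∈ A2, 2 ^ t * f u := by
            refine sum_le_sum fun u hu => ?_
            rw [hA2, mem_filter] at hu
            omega
        _ ≤ ∑ u ∈ A', 2 ^ t * f u := sum_le_sum_of_subset (filter_subset _ _)
        _ = 2 ^ t * ∑ u ∈ A', f u := by rw [mul_sum]
    have e2 : ((A2.card * B'.card : ℕ) : ℝ) ≤ 2 ^ t * (∑ u ∈ A', f u : ℕ) := by exact_mod_cast e1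
    have e3 : ((A2.card : ℝ) * 2) * B'.card ≤ A'.card * B'.card := by
      calc ((A2.card : ℝ) * 2) * B'.card = 2 * ((A2.card * B'.card : ℕ) : ℝ) := by push_cast; ring
        _ ≤ 2 * (2 ^ t * (∑ u ∈ A', f u : ℕ)) := by linarith
        _ ≤ 2 * (2 ^ t * (2 * (1 / 2) ^ (t + 2) * (A'.card * B'.card))) := by
            refine mul_le_mul_of_nonneg_left ?_ (by norm_num)
            exact mul_le_mul_of_nonneg_left h1 (by positivity)
        _ = ((1 / 2 : ℝ) ^ t * 2 ^ t) * (A'.card * B'.card) := by rw [pow_add]; ring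
        _ = A'.card * B'.card := by rw [ht2, one_mul]
    have e4 : (A2.card : ℝ) * 2 ≤ A'.card := le_of_mul_le_mul_right e3 hB'p
    have e5 : A2.card * 2 ≤ A'.card := by exact_mod_cast e4
    omega
  have hA1c : A'.card ≤ 2 * A1.card := by omega
  refine ⟨A1, (filter_subset _ _).trans hA', B', hB', ?_, ?_, ?_⟩
  · have e6 : (A.card : ℝ) ≤ (2 ^ (s + 2) * A1.card : ℕ) := by
      have e7 : (A'.card : ℝ) ≤ 2 * A1.card := by exact_mod_cast hA1c
      calc (A.card : ℝ) = ((1 / 2 : ℝ) ^ s * 2 ^ s) * A.card := by rw [hs2, one_mul]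
        _ = 2 ^ s * ((1 / 2 : ℝ) ^ s * A.card) := by ring
        _ ≤ 2 ^ s * (2 * (2 * A1.card)) := by
            refine mul_le_mul_of_nonneg_left ?_ (by positivity)
            linarith
        _ = (2 ^ (s + 2) * A1.card : ℕ) := by push_cast; rw [pow_add]; ring
    exact_mod_cast e6
  · have e6 : (B.card : ℝ) ≤ (2 ^ (s + 2) * B'.card : ℕ) := by
      calc (B.card : ℝ) = ((1 / 2 : ℝ) ^ s * 2 ^ s) * B.card := by rw [hs2, one_mul]
        _ = 2 ^ s * ((1 / 2 : ℝ) ^ s * B.card) := by ring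
        _ ≤ 2 ^ s * (2 * (2 * B'.card)) := by
            refine mul_le_mul_of_nonneg_left ?_ (by positivity)
            linarith
        _ = (2 ^ (s + 2) * B'.card : ℕ) := by push_cast; rw [pow_add]; ring
    exact_mod_cast e6
  · by_cases hb : b
    · right
      intro u hu
      rw [hA1, mem_filter] at hu
      have : (B'.filter (fun v => ¬ G.Adj u v)) = B'.filter (fun v => ¬ (b ↔ G.Adj u v)) := by
        refine filter_congr fun v _ => ?_
        simp [hb]
      rw [this]
      exact hu.2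
    · left
      intro u hu
      rw [hA1, mem_filter] at hu
      have : (B'.filter (fun v => G.Adj u v)) = B'.filter (fun v => ¬ (b ↔ G.Adj u v)) := by
        refine filter_congr fun v _ => ?_
        simp [hb]
      rw [this]
      exact hu.2

/-- The rectangle sampling cost of `G` is at most `c`. -/
def RectCost (G : SimpleGraph V) (c : ℕ) : Prop := Sampled G ((1 / 2) ^ c) (1 / 2)

theorem RectCost.pairProp {G : SimpleGraph V} {c : ℕ} (h : RectCost G c) (t : ℕ) :
    PairProp G (2 ^ (c * (t + 2) + 2)) (2 ^ t) := by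
  have h1 := Sampled.pow (by positivity) h (t + 1)
  rw [← pow_mul] at h1
  exact pairProp_of_sampled h1

/-- Discrepancy: a convex combination of signed rectangles has value at least `δ` on the pairs of
one colour and at most `-δ` on the pairs of the other colour. -/
def Margin (G : SimpleGraph V) (δ : ℝ) : Prop :=
  ∃ (ι : Type) (_ : Fintype ι) (w : ι → ℝ) (X Y : ι → V → Prop) (b : ι → Prop),
    (∀ i, 0 ≤ w i) ∧ ∑ i, w i ≤ 1 ∧
    ∀ u v, u ≠ v → δ ≤ hit w X Y b u v (G.Adj u v) - hit w X Y b u v (¬ G.Adj u v)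

theorem sampled_of_margin {G : SimpleGraph V} {δ : ℝ} (h0 : 0 < δ) (h : Margin G δ) :
    Sampled G (1 / 4) (1 - δ / 2) := by
  obtain ⟨ι, _, w, X, Y, b, hw, hs, h1⟩ := h
  refine ⟨ι ⊕ Bool, inferInstance, Sum.elim (fun i => w i / 2) (fun _ => 1 / 4),
    Sum.elim X (fun _ _ => True), Sum.elim Y (fun _ _ => True), Sum.elim b (fun β => β = true),
    ?_, ?_, ?_⟩
  · rintro (i | β)
    · simp only [Sum.elim_inl]
      linarith [hw i]
    · simp only [Sum.elim_inr]
      norm_num
  · rw [Fintype.sum_sum_type]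
    simp only [Sum.elim_inl, Sum.elim_inr, ← sum_div, sum_const, card_univ, Fintype.card_bool]
    norm_num
    linarith
  · intro u v huv
    have key : ∀ a : Prop, hit (Sum.elim (fun i => w i / 2) (fun _ : Bool => (1 / 4 : ℝ)))
        (Sum.elim X (fun _ _ => True)) (Sum.elim Y (fun _ _ => True))
        (Sum.elim b (fun β => β = true)) u v a = hit w X Y b u v a / 2 + 1 / 4 := by
      intro a
      unfold hit
      rw [Fintype.sum_sum_type]
      congr 1
      · rw [sum_div]
        refine sum_congr rfl fun i _ => ?_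
        change (if X i u ∧ Y i v ∧ (b i ↔ a) then w i / 2 else 0) = _
        by_cases h2 : X i u ∧ Y i v ∧ (b i ↔ a)
        · rw [if_pos h2, if_pos h2]
        · rw [if_neg h2, if_neg h2, zero_div]
      · by_cases ha : a <;> simp [ha]
    rw [key, key]
    have h2 := h1 u v huv
    have h3 := hit_nonneg (X := X) (Y := Y) (b := b) hw u v (G.Adj u v)
    have h4 := hit_le (X := X) (Y := Y) (b := b) hw u v (G.Adj u v)
    constructor
    · linarith
    · nlinarith

theorem rectCost_of_margin {G : SimpleGraph V} {δ : ℝ} (h0 : 0 < δ) (h1 : δ ≤ 1)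
    (h : Margin G δ) (t : ℕ) (ht : 2 / δ ≤ t) : RectCost G (2 * t) := by
  have ht1 : 1 ≤ t := by
    have : 0 < 2 / δ := by positivity
    have h2 : (0 : ℝ) < t := lt_of_lt_of_le this ht
    exact_mod_cast h2
  obtain ⟨t', rfl⟩ : ∃ t', t = t' + 1 := ⟨t - 1, by omega⟩
  have h2 := Sampled.pow (by norm_num) (sampled_of_margin h0 h) t'
  refine h2.mono ?_ ?_
  · rw [pow_mul]
    norm_num
  · have h3 : 1 + ((t' + 1 : ℕ) : ℝ) * (δ / 2) ≤ (1 + δ / 2) ^ (t' + 1) :=
      one_add_mul_le_pow (by linarith) _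
    have h4 : 2 ≤ ((t' + 1 : ℕ) : ℝ) * δ := by
      rwa [div_le_iff₀ h0] at ht
    have h5 : (1 - δ / 2) ^ (t' + 1) * (1 + δ / 2) ^ (t' + 1) ≤ 1 := by
      rw [← mul_pow]
      refine pow_le_one₀ ?_ ?_ <;> nlinarith
    have h6 : 0 ≤ (1 - δ / 2) ^ (t' + 1) := pow_nonneg (by linarith) _
    have h7 : (2 : ℝ) ≤ (1 + δ / 2) ^ (t' + 1) := by linarith
    nlinarith

end Pool.Agent.N920.CC
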